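import Pool.Agent.W_7d29a1_HR.Low
import Pool.Agent.W_7d29a1_HL.LuckSide
import Pool.Agent.W_7d29a1_HL.SepDet

/-!
MP_7d29a1_pr, TRACK H, part 4 (at the tilt `s`): the polymer confined to a strip, and the exit (model: `W_7d29a1_NR.Low2`).
The rows have any duration `m`; the centre of the strip of the rest of the path is off by less than one site (offset `o ∈ [0, 1)`),
without drift. (helper32)
-/

set_option autoImplicit false

namespace Pool.Agent.W_7d29a1_HR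

open MeasureTheory ProbabilityTheory Filter Topology
open Pool.Agent.W_7d29a1_F Pool.Agent.W_7d29a1_h4g Pool.Agent.W_7d29a1_H Pool.Agent.W_7d29a1_HS
open Pool.Agent.W_7d29a1_HL (cS measurable_cS real_inter_indep WR_off WR_last_off WR_add')
open Pool.Agent.W_7d29a1_h48 (W_mono_env WR_mono_env Zr_mono_env)

noncomputable section

variable {μ : Measure ℝ} {s : ℝ}

/-- The weights of a confined polymer, cut at the row `t + m`. -/
theorem cS_add_le [IsProbabilityMeasure μ] (S : Set Pt) (η : Env) (t x : ℤ) (m n : ℕ) :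
    cS μ s S η (t, x) (m + n) ≤ ∑ u ∈ Finset.Icc x (x + m), WR μ s S η (t, x) m (u - x) * cS μ s S η (t + m, u) n := by
  have h1 : cS μ s S η (t, x) (m + n) = ∑ y ∈ Finset.Icc (0 : ℤ) (m + n : ℕ), ∑ u ∈ Finset.Icc x (x + m),
      WR μ s S η (t, x) m (u - x) * WR μ s S η (t + m, u) n (y + x - u) := by
    unfold cS
    refine Finset.sum_congr rfl fun y _ => ?_
    have h2 := WR_add' (μ := μ) (s := s) S η t x m n (y + x) (A := x) (B := x + m) le_rfl le_rfl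
    rw [add_sub_cancel_right] at h2
    exact h2
  rw [h1, Finset.sum_comm]
  refine Finset.sum_le_sum fun u _ => ?_
  rw [← Finset.mul_sum]
  refine mul_le_mul_of_nonneg_left ?_ (WR_nonneg _ _ _ _ _)
  -- the sum over a translate of an interval
  have h3 : ∑ y ∈ Finset.Icc (0 : ℤ) (m + n : ℕ), WR μ s S η (t + m, u) n (y + x - u) =
      ∑ z ∈ (Finset.Icc (0 : ℤ) (m + n : ℕ)).map (addRightEmbedding (x - u)), WR μ s S η (t + m, u) n z := by
    rw [Finset.sum_map]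
    refine Finset.sum_congr rfl fun y _ => ?_
    congr 1
    show y + x - u = y + (x - u)
    ring
  rw [h3]
  unfold cS
  have h4 : ∑ z ∈ (Finset.Icc (0 : ℤ) (m + n : ℕ)).map (addRightEmbedding (x - u)), WR μ s S η (t + m, u) n z =
      ∑ z ∈ ((Finset.Icc (0 : ℤ) (m + n : ℕ)).map (addRightEmbedding (x - u))).filter (fun z => z ∈ Finset.Icc (0 : ℤ) n),
        WR μ s S η (t + m, u) n z := by
    rw [Finset.sum_filter]
    refine Finset.sum_congr rfl fun z _ => ?_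
    split_ifs with h5
    · rfl
    · exact WR_off S η _ fun h6 => h5 (Finset.mem_Icc.2 h6)
  rw [h4]
  exact Finset.sum_le_sum_of_subset_of_nonneg (fun z hz => (Finset.mem_filter.1 hz).2) fun z _ _ => WR_nonneg _ _ _ _ _

/-- One block: the polymer confined to `S` from a start whose free polymer is unlucky. -/
theorem cS_step [IsProbabilityMeasure μ] {S : Set Pt} (η : Env) {t x : ℤ} {m n : ℕ} (hm : 1 ≤ m) {A B : ℝ}
    (hV : V μ s η (t, x) m ≤ -A) (hn : ∀ u : ℤ, ((t + m, u) : Pt) ∈ S → cS μ s S η (t + m, u) n ≤ Real.exp (-B)) :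
    cS μ s S η (t, x) (m + n) ≤ Real.exp (-(A + B)) := by
  refine (cS_add_le S η t x m n).trans ?_
  have h1 : ∀ u ∈ Finset.Icc x (x + m), WR μ s S η (t, x) m (u - x) * cS μ s S η (t + m, u) n ≤
      WR μ s S η (t, x) m (u - x) * Real.exp (-B) := by
    intro u _
    by_cases hu : ((t + m, u) : Pt) ∈ S
    · exact mul_le_mul_of_nonneg_left (hn u hu) (WR_nonneg _ _ _ _ _)
    · rw [WR_last_off η (t, x) hm (by
        have : ((t : ℤ) + m, x + (u - x)) = ((t + m, u) : Pt) := by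
          ext
          · rfl
          · show x + (u - x) = u
            ring
        show ((t : ℤ) + m, x + (u - x)) ∉ S
        rw [this]
        exact hu), zero_mul, zero_mul]
  refine (Finset.sum_le_sum h1).trans ?_
  rw [← Finset.sum_mul]
  have h2 : ∑ u ∈ Finset.Icc x (x + m), WR μ s S η (t, x) m (u - x) ≤ Real.exp (V μ s η (t, x) m) := by
    rw [exp_V]
    have h3 : ∑ u ∈ Finset.Icc x (x + m), WR μ s S η (t, x) m (u - x) =
        ∑ y ∈ Finset.Icc (0 : ℤ) m, WR μ s S η (t, x) m y := by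
      refine Finset.sum_nbij' (fun u => u - x) (fun y => y + x) ?_ ?_ ?_ ?_ ?_
      · intro u hu
        rw [Finset.mem_Icc] at hu ⊢
        omega
      · intro y hy
        rw [Finset.mem_Icc] at hy ⊢
        omega
      · intro u _
        ring
      · intro y _
        ring
      · intro u _
        rfl
    rw [h3]
    exact Finset.sum_le_sum fun y _ => WR_le_W _ _ _ _ _
  have h3 : Real.exp (-(A + B)) = Real.exp (-A) * Real.exp (-B) := by
    rw [← Real.exp_add]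
    congr 1
    ring
  rw [h3]
  exact mul_le_mul_of_nonneg_right (h2.trans (Real.exp_le_exp.2 hV)) (Real.exp_pos _).le

theorem cS_mono_env (S : Set Pt) {η η' : Env} (h : ∀ p, η p ≤ η' p) (a : Pt) (l : ℕ) : cS μ s S η a l ≤ cS μ s S η' a l :=
  Finset.sum_le_sum fun y _ => WR_mono_env S h a l y

theorem cS_le_V (S : Set Pt) (η : Env) (a : Pt) (l : ℕ) : cS μ s S η a l ≤ Real.exp (V μ s η a l) := by
  rw [exp_V]
  exact Finset.sum_le_sum fun y _ => WR_le_W _ _ _ _ _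

/-- The strip around the line through `(0, o)`. -/
def So (μ : Measure ℝ) (s ρ o : ℝ) : Set Pt := {p | |(p.2 : ℝ) - o - sl μ s * p.1| ≤ ρ}

/-- The strip around `0`. -/
def Sp (μ : Measure ℝ) (s ρ : ℝ) : Set Pt := St μ s ρ 0

theorem mem_Sp {ρ : ℝ} {p : Pt} : p ∈ Sp μ s ρ ↔ |(p.2 : ℝ) - sl μ s * p.1| ≤ ρ := by
  show |((p.2 - 0 : ℤ) : ℝ) - sl μ s * ((p.1 - 0 : ℤ) : ℝ)| ≤ ρ ↔ _
  rw [sub_zero, sub_zero]

theorem mem_So {ρ o : ℝ} {p : Pt} : p ∈ So μ s ρ o ↔ |(p.2 : ℝ) - o - sl μ s * p.1| ≤ ρ := Iff.rfl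

theorem So_zero (ρ : ℝ) : So μ s ρ 0 = Sp μ s ρ := by
  ext p
  rw [mem_So, mem_Sp, sub_zero]

/-- The confined polymers of length `N` are all unlucky. -/
def Dn (μ : Measure ℝ) (s ρ : ℝ) (N : ℕ) (Y : ℝ) : Set Env :=
  {η | ∀ y ∈ Finset.Icc (-⌊ρ⌋) ⌊ρ⌋, cS μ s (Sp μ s ρ) η ((0 : ℤ), y) N ≤ Real.exp (-Y)}

theorem Dn_meas (ρ : ℝ) (N : ℕ) (Y : ℝ) : MeasurableSet (Dn μ s ρ N Y) := by
  have e : Dn μ s ρ N Y = ⋂ y ∈ Finset.Icc (-⌊ρ⌋) ⌊ρ⌋, {η | cS μ s (Sp μ s ρ) η ((0 : ℤ), y) N ≤ Real.exp (-Y)} := by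
    ext η
    simp only [Set.mem_iInter]
    exact Iff.rfl
  rw [e]
  exact Finset.measurableSet_biInter _ fun y _ => measurableSet_le (measurable_cS _ _ _) measurable_const

theorem Dn_dec (ρ : ℝ) (N : ℕ) (Y : ℝ) : Dec (Dn μ s ρ N Y) := fun _ _ h hη y hy =>
  (cS_mono_env _ h _ _).trans (hη y hy)

theorem Dn_fin (ρ : ℝ) (N : ℕ) (Y : ℝ) : Fin' (Dn μ s ρ N Y) := by
  classical
  refine ⟨Finset.Icc (0 : ℤ) N ×ˢ Finset.Icc (-⌊ρ⌋) (⌊ρ⌋ + N), fun η η' hh => ?_⟩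
  have h1 : ∀ y ∈ Finset.Icc (-⌊ρ⌋) ⌊ρ⌋, cS μ s (Sp μ s ρ) η ((0 : ℤ), y) N = cS μ s (Sp μ s ρ) η' ((0 : ℤ), y) N := by
    intro y hy
    rw [Finset.mem_Icc] at hy
    unfold cS
    refine Finset.sum_congr rfl fun z _ => WR_dep (μ := μ) (s := s) (Sp μ s ρ) _ N z fun p hp => hh p ?_
    obtain ⟨⟨k1, k2, k3, k4, k5, k6⟩, -⟩ := hp
    simp only at k1 k2 k3 k4
    rw [Finset.mem_product, Finset.mem_Icc, Finset.mem_Icc]
    omega
  constructor
  · intro h y hy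
    rw [← h1 y hy]
    exact h y hy
  · intro h y hy
    rw [h1 y hy]
    exact h y hy

theorem Dn_dep (ρ : ℝ) (N : ℕ) (Y : ℝ) : ∀ η η' : Env, (∀ p ∈ {p : Pt | 0 < p.1}, η p = η' p) →
    (η ∈ Dn μ s ρ N Y ↔ η' ∈ Dn μ s ρ N Y) := by
  intro η η' hh
  have h1 : ∀ y : ℤ, cS μ s (Sp μ s ρ) η ((0 : ℤ), y) N = cS μ s (Sp μ s ρ) η' ((0 : ℤ), y) N := by
    intro y
    unfold cS
    exact Finset.sum_congr rfl fun z _ => WR_dep (μ := μ) (s := s) (Sp μ s ρ) _ N z fun p hp => hh p hp.1.1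
  constructor
  · intro h y hy
    rw [← h1 y]
    exact h y hy
  · intro h y hy
    rw [h1 y]
    exact h y hy

/-- The confined polymers of length `N` in the strip with the offset `o ∈ [0, 1]` are all unlucky. -/
def Do (μ : Measure ℝ) (s ρ o : ℝ) (N : ℕ) (Y : ℝ) : Set Env :=
  {η | ∀ y ∈ Finset.Icc (-⌊ρ⌋) (⌊ρ⌋ + 1), cS μ s (So μ s ρ o) η ((0 : ℤ), y) N ≤ Real.exp (-Y)}

theorem Do_meas (ρ o : ℝ) (N : ℕ) (Y : ℝ) : MeasurableSet (Do μ s ρ o N Y) := by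
  have e : Do μ s ρ o N Y = ⋂ y ∈ Finset.Icc (-⌊ρ⌋) (⌊ρ⌋ + 1),
      {η | cS μ s (So μ s ρ o) η ((0 : ℤ), y) N ≤ Real.exp (-Y)} := by
    ext η
    simp only [Set.mem_iInter]
    exact Iff.rfl
  rw [e]
  exact Finset.measurableSet_biInter _ fun y _ => measurableSet_le (measurable_cS _ _ _) measurable_const

theorem Do_dep (ρ o : ℝ) (N : ℕ) (Y : ℝ) : ∀ η η' : Env, (∀ p ∈ {p : Pt | 0 < p.1}, η p = η' p) →
    (η ∈ Do μ s ρ o N Y ↔ η' ∈ Do μ s ρ o N Y) := by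
  intro η η' hh
  have h1 : ∀ y : ℤ, cS μ s (So μ s ρ o) η ((0 : ℤ), y) N = cS μ s (So μ s ρ o) η' ((0 : ℤ), y) N := by
    intro y
    unfold cS
    exact Finset.sum_congr rfl fun z _ => WR_dep (μ := μ) (s := s) (So μ s ρ o) _ N z fun p hp => hh p hp.1.1
  constructor
  · intro h y hy
    rw [← h1 y]
    exact h y hy
  · intro h y hy
    rw [h1 y]
    exact h y hy

theorem cSo_sh {ρ o o' : ℝ} (η : Env) (m : ℕ) (k : ℤ) (ho : o' = o + sl μ s * m - k) (x : ℤ) (N : ℕ) :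
    cS μ s (So μ s ρ o') (sh ((m : ℤ), k) η) ((0 : ℤ), x) N = cS μ s (So μ s ρ o) η ((m : ℤ), x + k) N := by
  unfold cS
  refine Finset.sum_congr rfl fun y _ => ?_
  have h1 := WR_sh (μ := μ) (s := s) (So μ s ρ o) η ((0 : ℤ), x) ((m : ℤ), k) N y
  have h2 : {p : Pt | p + ((m : ℤ), k) ∈ So μ s ρ o} = So μ s ρ o' := by
    ext p
    rw [Set.mem_ofPred_eq, mem_So, mem_So]
    show |((p.2 + k : ℤ) : ℝ) - o - sl μ s * ((p.1 + (m : ℤ) : ℤ) : ℝ)| ≤ ρ ↔ _
    push_cast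
    have : (p.2 : ℝ) + k - o - sl μ s * (p.1 + m) = (p.2 : ℝ) - o' - sl μ s * p.1 := by
      rw [ho]
      ring
    rw [this]
  rw [h2] at h1
  rw [h1]
  congr 1
  ext
  · show (0 : ℤ) + m = m
    ring
  · rfl

variable [IsProbabilityMeasure μ]

/-- ONE UNLUCKY ROW in front. -/
theorem Do_step {ρ κ p : ℝ} {m w I : ℕ} (hm : 1 ≤ m) (hw : 1 ≤ w) (hp : 0 ≤ p) (hI : 2 * ⌊ρ⌋ + 1 < I * w)
    (hc : ∀ t y0 : ℤ, p ≤ (law μ).real {η | sm μ s η (Finset.Ico y0 (y0 + w)) t m ≤ -κ}) (N : ℕ) (Y : ℝ) {o o' : ℝ} {k : ℤ}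
    (ho' : o' = o + sl μ s * m - k) (h0' : 0 ≤ o') (h1' : o' ≤ 1) :
    p ^ I * (law μ).real (Do μ s ρ o' N Y) ≤ (law μ).real (Do μ s ρ o (m + N) (κ + Y)) := by
  obtain ⟨a, ha⟩ : ∃ a : Pt, a = ((m : ℤ), k) := ⟨_, rfl⟩
  obtain ⟨U, hU⟩ : ∃ U : Set Env, U = {η | ∀ y ∈ Finset.Icc (-⌊ρ⌋) (⌊ρ⌋ + 1), V μ s η ((0 : ℤ), y) m ≤ -κ} := ⟨_, rfl⟩
  have hUp : p ^ I ≤ (law μ).real U := by
    rw [hU]
    exact row_all (μ := μ) (s := s) hw hp (fun y0 => hc 0 y0) (-⌊ρ⌋) (⌊ρ⌋ + 1) (by linarith)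
  have mU : MeasurableSet U := by
    have e : U = ⋂ y ∈ Finset.Icc (-⌊ρ⌋) (⌊ρ⌋ + 1), {η | V μ s η ((0 : ℤ), y) m ≤ -κ} := by
      rw [hU]
      ext η
      simp only [Set.mem_iInter]
      exact Iff.rfl
    rw [e]
    exact Finset.measurableSet_biInter _ fun y _ => measurableSet_le (measurable_V _ _) measurable_const
  have dU : ∀ η η' : Env, (∀ q ∈ rows 0 m, η q = η' q) → (η ∈ U ↔ η' ∈ U) := by
    intro η η' hh
    have g1 : ∀ y : ℤ, V μ s η ((0 : ℤ), y) m = V μ s η' ((0 : ℤ), y) m := fun y =>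
      V_dep (μ := μ) (s := s) _ _ fun q hq => hh q (by
        have k1 := hq.1
        have k2 := hq.2.1
        simp only [zero_add] at k1 k2
        exact ⟨k1, k2⟩)
    rw [hU, Set.mem_ofPred_eq, Set.mem_ofPred_eq]
    simp only [g1]
  have hs : Measurable fun η : Env => sh a η := measurable_pi_lambda _ fun p => measurable_pi_apply (p + a)
  obtain ⟨E, hE⟩ : ∃ E : Set Env, E = {η | sh a η ∈ Do μ s ρ o' N Y} := ⟨_, rfl⟩
  have mE : MeasurableSet E := by rw [hE]; exact hs (Do_meas ρ o' N Y)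
  have hEp : (law μ).real E = (law μ).real (Do μ s ρ o' N Y) := by rw [hE]; exact real_sh a (Do_meas ρ o' N Y)
  have dE : ∀ η η' : Env, (∀ q ∈ {q : Pt | (m : ℤ) < q.1}, η q = η' q) → (η ∈ E ↔ η' ∈ E) := by
    intro η η' hh
    rw [hE, Set.mem_ofPred_eq, Set.mem_ofPred_eq]
    refine Do_dep ρ o' N Y _ _ fun q hq => ?_
    show η (q + a) = η' (q + a)
    refine hh (q + a) ?_
    show (m : ℤ) < (q + a).1
    have k1 : 0 < q.1 := hq
    have k2 : (q + a).1 = q.1 + m := by rw [ha]; rfl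
    rw [k2]
    omega
  have hind := real_inter_indep (μ := μ) mU mE dU dE (by
    rw [Set.disjoint_left]
    intro q hq1 hq2
    have k1 := hq1.2
    have k2 : (m : ℤ) < q.1 := hq2
    omega)
  have hincl : U ∩ E ⊆ Do μ s ρ o (m + N) (κ + Y) := by
    rintro η ⟨q1, q2⟩ y hy
    rw [hU, Set.mem_ofPred_eq] at q1
    rw [hE, Set.mem_ofPred_eq] at q2
    refine cS_step (μ := μ) (s := s) η hm (q1 y hy) fun u hu => ?_
    rw [mem_So] at hu
    simp only [zero_add] at hu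
    have h1 : |((u - k : ℤ) : ℝ) - o'| ≤ ρ := by
      refine le_trans (le_of_eq ?_) hu
      rw [ho']
      push_cast
      congr 1
      ring
    have h2 : u - k ∈ Finset.Icc (-⌊ρ⌋) (⌊ρ⌋ + 1) := by
      rw [abs_le] at h1
      rw [Finset.mem_Icc]
      constructor
      · have h3 : -(u - k : ℤ) ≤ ⌊ρ⌋ := Int.le_floor.2 (by push_cast at h1 ⊢; linarith [h1.1])
        omega
      · have h3 : (u - k : ℤ) - 1 ≤ ⌊ρ⌋ := Int.le_floor.2 (by push_cast at h1 ⊢; linarith [h1.2])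
        omega
    have h3 := q2 (u - k) h2
    rw [ha, cSo_sh η m k ho'] at h3
    have h4 : (((m : ℕ) : ℤ), u - k + k) = ((0 : ℤ) + ((m : ℕ) : ℤ), u) := by
      ext
      · show (m : ℤ) = (0 : ℤ) + (m : ℤ)
        ring
      · show u - k + k = u
        ring
    rw [h4] at h3
    exact h3
  have h1 := measureReal_mono hincl (measure_ne_top (law μ) _)
  rw [hind, hEp] at h1
  exact (mul_le_mul_of_nonneg_right hUp measureReal_nonneg).trans h1

/-- `k + 1` UNLUCKY ROWS, any offset. -/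
theorem Do_iter {ρ κ p : ℝ} {m w I l : ℕ} (hm : 1 ≤ m) (hw : 1 ≤ w) (hp : 0 ≤ p) (hI : 2 * ⌊ρ⌋ + 1 < I * w)
    (hc : ∀ t y0 : ℤ, p ≤ (law μ).real {η | sm μ s η (Finset.Ico y0 (y0 + w)) t m ≤ -κ})
    (hc' : ∀ y0 : ℤ, p ≤ (law μ).real {η | sm μ s η (Finset.Ico y0 (y0 + w)) 0 l ≤ -κ}) (k : ℕ) :
    ∀ o : ℝ, (p ^ I) ^ (k + 1) ≤ (law μ).real (Do μ s ρ o (k * m + l) ((k + 1) * κ)) := by
  induction k with
  | zero =>
    intro o
    have h1 := row_all (μ := μ) (s := s) hw hp hc' (-⌊ρ⌋) (⌊ρ⌋ + 1) (I := I) (by linarith)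
    rw [zero_add, pow_one]
    refine h1.trans (measureReal_mono (fun η hη y hy => ?_) (measure_ne_top _ _))
    have h2 : ((0 : ℕ) : ℝ) + 1 = 1 := by norm_num
    rw [h2, one_mul]
    have h3 : 0 * m + l = l := by ring
    rw [h3]
    exact (cS_le_V _ _ _ _).trans (Real.exp_le_exp.2 (hη y hy))
  | succ k ih =>
    intro o
    have hf1 := Int.floor_le (o + sl μ s * m)
    have hf2 := Int.lt_floor_add_one (o + sl μ s * m)
    have h1 := Do_step (μ := μ) (s := s) hm hw hp hI hc (k * m + l) ((k + 1) * κ) (o := o)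
      (o' := o + sl μ s * m - ⌊o + sl μ s * m⌋) (k := ⌊o + sl μ s * m⌋) rfl (by linarith) (by linarith)
    have e1 : m + (k * m + l) = (k + 1) * m + l := by ring
    have e2 : κ + ((k : ℝ) + 1) * κ = (((k + 1 : ℕ) : ℝ) + 1) * κ := by push_cast; ring
    rw [e1, e2] at h1
    refine le_trans ?_ h1
    rw [pow_succ, mul_comm]
    exact mul_le_mul_of_nonneg_left (ih _) (pow_nonneg hp _)

/-- `k + 1` UNLUCKY ROWS. -/
theorem Dn_iter {ρ κ p : ℝ} {m w I l : ℕ} (hm : 1 ≤ m) (hw : 1 ≤ w) (hp : 0 ≤ p) (hI : 2 * ⌊ρ⌋ + 1 < I * w)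
    (hc : ∀ t y0 : ℤ, p ≤ (law μ).real {η | sm μ s η (Finset.Ico y0 (y0 + w)) t m ≤ -κ})
    (hc' : ∀ y0 : ℤ, p ≤ (law μ).real {η | sm μ s η (Finset.Ico y0 (y0 + w)) 0 l ≤ -κ}) (k : ℕ) :
    (p ^ I) ^ (k + 1) ≤ (law μ).real (Dn μ s ρ (k * m + l) ((k + 1) * κ)) := by
  refine (Do_iter (μ := μ) (s := s) hm hw hp hI hc hc' k 0).trans (measureReal_mono (fun η hη y hy => ?_) (measure_ne_top _ _))
  rw [← So_zero]
  refine hη y ?_
  rw [Finset.mem_Icc] at hy ⊢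
  omega

/-- The weight of the exit is increasing. -/
theorem exit_mono (R : Set Pt) {η η' : Env} (h : ∀ p, η p ≤ η' p) (a : Pt) (n : ℕ) (y : ℤ) :
    0 ≤ Zr Set.univ η a n y - Zr R η a n y ∧
    Zr Set.univ η a n y - Zr R η a n y ≤ Zr Set.univ η' a n y - Zr R η' a n y := by
  induction n generalizing y with
  | zero =>
    show 0 ≤ (if y = 0 then (1 : ℝ) else 0) - (if y = 0 then (1 : ℝ) else 0) ∧
      (if y = 0 then (1 : ℝ) else 0) - (if y = 0 then (1 : ℝ) else 0) ≤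
      (if y = 0 then (1 : ℝ) else 0) - (if y = 0 then (1 : ℝ) else 0)
    simp
  | succ n ih =>
    obtain ⟨q, hq⟩ : ∃ q : Pt, q = (a.1 + (n + 1), a.2 + y) := ⟨_, rfl⟩
    have hexp : Real.exp (η q) ≤ Real.exp (η' q) := Real.exp_le_exp.2 (h q)
    have e0 := Real.exp_pos (η q)
    show 0 ≤ (Set.univ : Set Pt).indicator (fun p => Real.exp (η p)) (a.1 + (n + 1), a.2 + y) *
        (Zr Set.univ η a n y + Zr Set.univ η a n (y - 1)) -
        R.indicator (fun p => Real.exp (η p)) (a.1 + (n + 1), a.2 + y) * (Zr R η a n y + Zr R η a n (y - 1)) ∧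
      (Set.univ : Set Pt).indicator (fun p => Real.exp (η p)) (a.1 + (n + 1), a.2 + y) *
        (Zr Set.univ η a n y + Zr Set.univ η a n (y - 1)) -
        R.indicator (fun p => Real.exp (η p)) (a.1 + (n + 1), a.2 + y) * (Zr R η a n y + Zr R η a n (y - 1)) ≤
      (Set.univ : Set Pt).indicator (fun p => Real.exp (η' p)) (a.1 + (n + 1), a.2 + y) *
        (Zr Set.univ η' a n y + Zr Set.univ η' a n (y - 1)) -
        R.indicator (fun p => Real.exp (η' p)) (a.1 + (n + 1), a.2 + y) * (Zr R η' a n y + Zr R η' a n (y - 1))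
    rw [← hq, Set.indicator_univ, Set.indicator_univ]
    obtain ⟨i1, i2⟩ := ih y
    obtain ⟨j1, j2⟩ := ih (y - 1)
    have u1 := Zr_nonneg (Set.univ : Set Pt) η a n y
    have u2 := Zr_nonneg (Set.univ : Set Pt) η a n (y - 1)
    have v1 := Zr_mono_env (Set.univ : Set Pt) h a n y
    have v2 := Zr_mono_env (Set.univ : Set Pt) h a n (y - 1)
    by_cases hR : q ∈ R
    · rw [Set.indicator_of_mem hR, Set.indicator_of_mem hR, ← mul_sub, ← mul_sub]
      have e1 : Zr Set.univ η a n y + Zr Set.univ η a n (y - 1) - (Zr R η a n y + Zr R η a n (y - 1)) =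
          (Zr Set.univ η a n y - Zr R η a n y) + (Zr Set.univ η a n (y - 1) - Zr R η a n (y - 1)) := by ring
      have e2 : Zr Set.univ η' a n y + Zr Set.univ η' a n (y - 1) - (Zr R η' a n y + Zr R η' a n (y - 1)) =
          (Zr Set.univ η' a n y - Zr R η' a n y) + (Zr Set.univ η' a n (y - 1) - Zr R η' a n (y - 1)) := by ring
      rw [e1, e2]
      exact ⟨mul_nonneg e0.le (add_nonneg i1 j1), mul_le_mul hexp (add_le_add i2 j2) (add_nonneg i1 j1)
        (Real.exp_pos _).le⟩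
    · rw [Set.indicator_of_notMem hR, Set.indicator_of_notMem hR, zero_mul, zero_mul, sub_zero, sub_zero]
      exact ⟨mul_nonneg e0.le (add_nonneg u1 u2), mul_le_mul hexp (add_le_add v1 v2) (add_nonneg u1 u2)
        (Real.exp_pos _).le⟩

omit [IsProbabilityMeasure μ] in
theorem exit_sum_mono (R : Set Pt) {η η' : Env} (h : ∀ p, η p ≤ η' p) (a : Pt) (n : ℕ) :
    Real.exp (V μ s η a n) - cS μ s R η a n ≤ Real.exp (V μ s η' a n) - cS μ s R η' a n := by
  rw [exp_V, exp_V]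
  unfold WS cS
  rw [← Finset.sum_sub_distrib, ← Finset.sum_sub_distrib]
  refine Finset.sum_le_sum fun y _ => ?_
  unfold W WR
  rw [← mul_sub, ← mul_sub]
  exact mul_le_mul_of_nonneg_left (exit_mono R h a n y).2 (Real.exp_pos _).le

end

end Pool.Agent.W_7d29a1_HR
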