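import Pool.Agent.W_7d29a1_HR.Step
import Pool.Agent.W_7d29a1_HR.Mass
import Pool.Agent.W_7d29a1_HL.SepBad
import Pool.Agent.W_7d29a1_HL.Hsl
import Pool.Agent.W_7d29a1_HS.Mir14

/-!
MP_7d29a1_pr, TRACK H, part 4, one tilt `s`: THE NON RANDOM FLUCTUATION of the free energy is of the order of the unit; with
`b n = - E V_n`, `2 b n - b (2 n) ≥ c' EE n` and `c' EE n ≤ b n ≤ EE n` (model: `W_7d29a1_NR.NonRand`). (helper87)
-/

set_option autoImplicit false

namespace Pool.Agent.W_7d29a1_HR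

open MeasureTheory ProbabilityTheory Filter Topology
open Pool.Agent.W_7d29a1_F Pool.Agent.W_7d29a1_h4g Pool.Agent.W_7d29a1_H Pool.Agent.W_7d29a1_HS
open Pool.Agent.W_7d29a1_HL hiding sl

noncomputable section

variable {μ : Measure ℝ} [IsProbabilityMeasure μ] {s c C : ℝ} {n₀ : ℕ}

/-- **THE GAP OF SUPERADDITIVITY** between the scales `m` and `2 m`, if the end law has mass on the left. -/
theorem gap_left (h : In μ s c C n₀) : ∃ c' : ℝ, 0 < c' ∧ ∃ n₁ : ℕ, ∀ m : ℕ, n₁ ≤ m →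
    1 / 3 ≤ (law μ).real {η | 1 / 4 ≤ ∑ k ∈ SL0 μ s m, gb μ s η m k} →
    2 * ∫ η, V μ s η 0 m ∂(law μ) + c' * EE μ s m ≤ ∫ η, V μ s η 0 (m + m) ∂(law μ) := by
  have hc0 := h.c0
  have hc1 := h.c1
  have hC1 := h.C1
  have hC0 : 0 < C := lt_of_lt_of_le one_pos hC1
  have hv0 := h.sl_pos
  have hv1 := h.sl_lt
  obtain ⟨v, hvd⟩ : ∃ v : ℝ, v = sl μ s := ⟨_, rfl⟩
  rw [← hvd] at hv0 hv1
  obtain ⟨κv, hκ0, hκa, hκb⟩ : ∃ κv : ℝ, 0 < κv ∧ κv ≤ v ∧ κv ≤ 1 - v :=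
    ⟨min v (1 - v), lt_min hv0 (by linarith), min_le_left _ _, min_le_right _ _⟩
  obtain ⟨R₁, hR₁, hstrip⟩ := strip h
  obtain ⟨R, C', hR, hC', nB, hvert⟩ := vert_bd h
  obtain ⟨nL, hluck⟩ := luck_side h
  obtain ⟨nW, hwg⟩ := wd_growth h
  obtain ⟨B, hB⟩ : ∃ B : ℝ, B = 16 * (R + R₁ + 1) / c := ⟨_, rfl⟩
  have hB0 : 0 < B := by rw [hB]; positivity
  obtain ⟨J3, nC, hJ3⟩ := scale_a h B
  obtain ⟨K3, hK3⟩ : ∃ K3 : ℕ, K3 = 2 ^ J3 := ⟨_, rfl⟩
  have hK31 : 1 ≤ K3 := hK3 ▸ Nat.one_le_two_pow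
  obtain ⟨b2, hb2⟩ : ∃ b2 : ℝ, b2 = 100 * C := ⟨_, rfl⟩
  obtain ⟨b3, hb3⟩ : ∃ b3 : ℝ, b3 = 100 * ((4 * K3 : ℕ) * C') := ⟨_, rfl⟩
  have hK3r : (0 : ℝ) < K3 := by exact_mod_cast hK31
  have hb2p : 0 < b2 := by rw [hb2]; positivity
  have hb3p : 0 < b3 := by rw [hb3]; push_cast; positivity
  obtain ⟨C3, hC3⟩ : ∃ C3 : ℝ, C3 = 100 * (C + 1) := ⟨_, rfl⟩
  have hC3p : 0 < C3 := by rw [hC3]; positivity
  obtain ⟨M1, hM1⟩ : ∃ M1 : ℝ, M1 = 100 * (4 + 2 * (C * C)) := ⟨_, rfl⟩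
  have hM1p : 0 < M1 := by rw [hM1]; positivity
  obtain ⟨M, hM⟩ : ∃ M : ℝ, M = 4 * (M1 + 3) := ⟨_, rfl⟩
  have hMp : 0 < M := by rw [hM]; positivity
  obtain ⟨b, hb⟩ : ∃ b : ℝ, b = 400 * C := ⟨_, rfl⟩
  have hbp : 0 < b := by rw [hb]; positivity
  obtain ⟨B0, hB0'⟩ : ∃ B0 : ℝ, B0 = (M + C3 + b2 + b3 + (C + 2)) * (64 / c ^ 2) := ⟨_, rfl⟩
  obtain ⟨J1, nD, hJ1⟩ := hsl h B0
  obtain ⟨J2, nD2, hJ2⟩ := scale_a h 64
  obtain ⟨J0, hJ0e⟩ : ∃ J0 : ℕ, J0 = J1 + J2 := ⟨_, rfl⟩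
  obtain ⟨Q, hQ⟩ : ∃ Q : ℕ, Q = 2 ^ (J0 + 3) * (2 * K3) := ⟨_, rfl⟩
  have hQ1 : 1 ≤ Q := by
    rw [hQ]
    exact Nat.one_le_iff_ne_zero.2 (by positivity)
  have hQr : (0 : ℝ) < Q := by exact_mod_cast hQ1
  obtain ⟨K', hK'⟩ : ∃ K' : ℝ, K' = (M + C3 + b) * (4 * Q) := ⟨_, rfl⟩
  obtain ⟨p, hp, nE, hS⟩ := hstrip K'
  obtain ⟨nF, hwd⟩ := (tendsto_atTop.1 (wd_tendsto h) (128 / c)).exists_forall_of_atTop
  obtain ⟨nI, hvA⟩ := eventually_atTop.1 (h.tv.eventually_le_const hκ0)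
  -- the threshold for τ
  obtain ⟨M0, hM0⟩ : ∃ M0 : ℕ, M0 = nB + nC + nE + nF + nI + nW + nD + n₀ + 1 := ⟨_, rfl⟩
  refine ⟨p / 4, by positivity, Q * M0 + nL + nD2 + nW + Q, fun m hm hmass => ?_⟩
  obtain ⟨τ, hτ⟩ : ∃ τ : ℕ, τ = m / Q := ⟨_, rfl⟩
  have hmQ : Q * M0 ≤ m := by omega
  have hτM : M0 ≤ τ := by
    rw [hτ]
    exact (Nat.le_div_iff_mul_le (by omega)).2 (by rw [mul_comm]; exact hmQ)
  have hτQ : Q * τ ≤ m := by
    rw [hτ]
    exact Nat.mul_div_le m Q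
  have hτQ2 : m < Q * (τ + 1) := by
    rw [hτ]
    exact Nat.lt_mul_div_succ m (by omega)
  obtain ⟨r, hr⟩ : ∃ r : ℕ, r = 2 * (K3 * τ) := ⟨_, rfl⟩
  have hτρ : τ ≤ K3 * τ := Nat.le_mul_of_pos_left τ (by omega)
  have hτr : τ ≤ r := by omega
  have hQr2 : Q * τ = 2 ^ (J0 + 3) * r := by
    rw [hQ, hr]
    ring
  have hrmG : ∀ j : ℕ, j ≤ J0 + 3 → 2 ^ j * r ≤ m := by
    intro j hj
    have h1 : 2 ^ j * r ≤ 2 ^ (J0 + 3) * r := Nat.mul_le_mul_right r (Nat.pow_le_pow_right (by norm_num) hj)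
    omega
  have hrm8 : 8 * r ≤ m := hrmG 3 (by omega)
  have hτ1 : 1 ≤ τ := by omega
  have hrm : r ≤ m := by omega
  have hEm := EE_pos (μ := μ) (s := s) m
  have hErp := EE_pos (μ := μ) (s := s) r
  have hEτp := EE_pos (μ := μ) (s := s) τ
  have hmono := EE_mono (μ := μ) (s := s)
  -- the scales
  have s1 : B * EE μ s τ ≤ EE μ s r := hJ3 τ r (by omega) (by
    rw [hr, ← hK3]
    have : 1 * (K3 * τ) ≤ 2 * (K3 * τ) := Nat.mul_le_mul_right _ (by norm_num)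
    omega)
  have s2 : 64 * EE μ s r ≤ EE μ s m := hJ2 r m (by omega) (hrmG J2 (by omega))
  have s2' : B0 * EE μ s m * wd μ s r ≤ EE μ s r * wd μ s m := hJ1 m r (by omega) (hrmG J1 (by omega))
  have s3 : wd μ s τ * EE μ s r ≤ 2 * EE μ s τ * wd μ s r := hwg τ r (by omega) hτr
  have s4 : wd μ s r * EE μ s m ≤ 2 * EE μ s r * wd μ s m := hwg r m (by omega) hrm
  have s5 : EE μ s m ≤ 4 * Q * EE μ s τ := by
    have h1 := scale_b h hτ1 (show τ ≤ m by omega)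
    have h2 : (m : ℝ) ≤ 2 * Q * τ := by
      have h3 : m ≤ 2 * Q * τ := by
        have h4 : Q * (τ + 1) ≤ 2 * Q * τ := by
          have : Q * 1 ≤ Q * τ := Nat.mul_le_mul_left Q hτ1
          calc Q * (τ + 1) = Q * τ + Q * 1 := by ring
            _ ≤ Q * τ + Q * τ := by omega
            _ = 2 * Q * τ := by ring
        omega
      exact_mod_cast h3
    have hτr0 : (0 : ℝ) < τ := by exact_mod_cast hτ1
    have h3 : (τ : ℝ) * EE μ s m ≤ τ * (4 * Q * EE μ s τ) := by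
      refine h1.trans ?_
      have h4 := mul_le_mul_of_nonneg_right h2 hEτp.le
      calc 2 * ((m : ℝ) * EE μ s τ) ≤ 2 * (2 * Q * τ * EE μ s τ) := by linarith
        _ = τ * (4 * Q * EE μ s τ) := by ring
    exact le_of_mul_le_mul_left h3 hτr0
  have hwτ : 0 < wd μ s τ := lt_of_lt_of_le (by positivity) (hwd τ (by omega))
  have hw40 : ∀ k : ℕ, nF ≤ k → 128 ≤ c * wd μ s k := by
    intro k hk
    have := hwd k hk
    rw [div_le_iff₀ hc0] at this
    linarith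
  have hwr40 := hw40 r (by omega)
  have hwm40 := hw40 m (by omega)
  have hwr : 0 < wd μ s r := by
    by_contra hh
    have : c * wd μ s r ≤ 0 := mul_nonpos_of_nonneg_of_nonpos hc0.le (not_lt.1 hh)
    linarith
  have hwm : 0 < wd μ s m := lt_of_lt_of_le (by positivity) (hwd m (by omega))
  have s6 : (R + R₁ + 1) * wd μ s τ ≤ c * wd μ s r / 8 := by
    have h1 : wd μ s τ * (B * EE μ s τ) ≤ 2 * EE μ s τ * wd μ s r := (mul_le_mul_of_nonneg_left s1 hwτ.le).trans s3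
    have h2 : (wd μ s τ * B) * EE μ s τ ≤ (2 * wd μ s r) * EE μ s τ := by linarith
    have h3 := le_of_mul_le_mul_right h2 hEτp
    rw [hB] at h3
    have h4 : (R + R₁ + 1) * wd μ s τ = wd μ s τ * (16 * (R + R₁ + 1) / c) * (c / 16) := by
      field_simp
    rw [h4]
    have h5 := mul_le_mul_of_nonneg_right h3 (show (0 : ℝ) ≤ c / 16 by positivity)
    linarith
  have s7 : wd μ s r ≤ wd μ s m / 32 := by
    have h2 : wd μ s r * (64 * EE μ s r) ≤ 2 * EE μ s r * wd μ s m := (mul_le_mul_of_nonneg_left s2 hwr.le).trans s4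
    have h3 : (wd μ s r * 64) * EE μ s r ≤ (2 * wd μ s m) * EE μ s r := by linarith
    have h4 := le_of_mul_le_mul_right h3 hErp
    linarith
  -- the displacement
  obtain ⟨L, hL⟩ : ∃ L : ℤ, L = ⌊c * wd μ s m / 8⌋ := ⟨_, rfl⟩
  have hL2 : (L : ℝ) ≤ c * wd μ s m / 8 := by rw [hL]; exact Int.floor_le _
  have hL1 : c * wd μ s m / 16 ≤ L := by
    have h1 : c * wd μ s m / 8 < L + 1 := by rw [hL]; exact Int.lt_floor_add_one _
    linarith
  have hwle : ∀ k : ℕ, nI ≤ k → wd μ s k ≤ κv * k := by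
    intro k hk
    unfold wd
    have h3 := hvA k hk
    have h4 : (0 : ℝ) ≤ k := Nat.cast_nonneg k
    calc (k : ℝ) * vA 1 μ s k ≤ k * κv := mul_le_mul_of_nonneg_left h3 h4
      _ = κv * k := mul_comm _ _
  have hL0 : 0 ≤ L := by
    have h1 : (0 : ℝ) ≤ L := le_trans (by positivity) hL1
    exact_mod_cast h1
  have hmdm := md_le (μ := μ) (s := s) m
  have hmdm' := lt_md (μ := μ) (s := s) m
  rw [← hvd] at hmdm hmdm'
  have hm0 : (0 : ℝ) ≤ m := Nat.cast_nonneg m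
  have hLm : md μ s m + L ≤ m := by
    have h1 : ((md μ s m + L : ℤ) : ℝ) ≤ ((m : ℤ) : ℝ) := by
      have h2 := hwle m (by omega)
      have h3 : c * wd μ s m ≤ 1 * wd μ s m := mul_le_mul_of_nonneg_right hc1 hwm.le
      have h4 : κv * m ≤ (1 - v) * m := mul_le_mul_of_nonneg_right hκb hm0
      push_cast
      linarith
    exact_mod_cast h1
  obtain ⟨D, hD⟩ : ∃ D : ℤ, D = ⌊c * wd μ s r / 4⌋ := ⟨_, rfl⟩
  have hD1 : (D : ℝ) ≤ c * wd μ s r / 4 := by rw [hD]; exact Int.floor_le _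
  have hD2 : c * wd μ s r / 4 < D + 1 := by rw [hD]; exact Int.lt_floor_add_one _
  have hD0 : 0 ≤ D := by
    rw [hD]
    exact Int.floor_nonneg.2 (by positivity)
  have hRτ : 0 ≤ R * wd μ s τ := mul_nonneg hR hwτ.le
  have hR₁τ : 0 < R₁ * wd μ s τ := mul_pos (by linarith) hwτ
  have hDa : R * wd μ s τ + 3 + R₁ * wd μ s τ ≤ D := by
    have : (R + R₁ + 1) * wd μ s τ = R * wd μ s τ + R₁ * wd μ s τ + wd μ s τ := by ring
    linarith
  have hDL : 4 * D ≤ L := by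
    have h1 : (4 : ℝ) * D ≤ L := by
      have h2 : c * wd μ s r ≤ c * wd μ s m / 32 := by
        have := mul_le_mul_of_nonneg_left s7 hc0.le
        linarith
      linarith
    exact_mod_cast h1
  have hmdr := md_le (μ := μ) (s := s) r
  have hmdr' := lt_md (μ := μ) (s := s) r
  rw [← hvd] at hmdr hmdr'
  have hr0 : (0 : ℝ) ≤ r := Nat.cast_nonneg r
  have hDr : 2 * D ≤ md μ s r := by
    have h1 : (2 : ℝ) * D ≤ (md μ s r : ℝ) := by
      have h2 := hwle r (by omega)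
      have h6 : c * wd μ s r ≤ 1 * wd μ s r := mul_le_mul_of_nonneg_right hc1 hwr.le
      have h7 : κv * r ≤ v * r := mul_le_mul_of_nonneg_right hκa hr0
      linarith
    exact_mod_cast h1
  -- the vertical path
  have hq : (4 * K3) * τ = 2 * r := by rw [hr]; ring
  obtain ⟨hpos, hvb⟩ := hvert τ (by omega) (4 * K3) ((r : ℤ), md μ s r + L - 2 * D) (Lw (ln μ s L D)) (by
    intro q hq1 hq2' hq3
    simp only at hq1 hq2' hq3
    show q.2 ≤ ln μ s L D q.1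
    unfold ln
    rw [abs_le, ← hvd] at hq3
    rw [← hvd]
    have hf := Int.lt_floor_add_one (v * (q.1 : ℝ))
    have h6 := hq3.2
    push_cast at h6
    have h7 : ((q.2 : ℤ) : ℝ) < ((⌊v * (q.1 : ℝ)⌋ + (L - D) + 1 : ℤ) : ℝ) := by
      push_cast
      linarith
    have h8 : q.2 < ⌊v * (q.1 : ℝ)⌋ + (L - D) + 1 := by exact_mod_cast h7
    omega) (by omega)
  rw [hq] at hpos hvb
  -- the event G
  obtain ⟨G, hG⟩ : ∃ G : Set Env, G = {η | K' * EE μ s τ ≤ Real.log (cf μ s (R₁ * wd μ s τ) η (2 * (r : ℤ), md μ s (2 * r) + L) τ)} :=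
    ⟨_, rfl⟩
  have hGm : MeasurableSet G := by
    rw [hG]
    refine measurableSet_le measurable_const (Real.measurable_log.comp ?_)
    unfold cf
    exact Finset.measurable_sum _ fun y _ => measurable_WR _ _ _ _
  have hpG : p ≤ (law μ).real G := by
    rw [hG]
    exact hS τ (by omega) _
  have hKE : (M + C3 + b) * EE μ s m ≤ K' * EE μ s τ := by
    rw [hK']
    have h1 : 0 ≤ M + C3 + b := by positivity
    have h2 := mul_le_mul_of_nonneg_left s5 h1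
    linarith
  have hwR1 : 1 ≤ R₁ * wd μ s τ := by
    have h1 := hwd τ (by omega)
    have h2 : (1 : ℝ) ≤ 128 / c := by
      rw [le_div_iff₀ hc0]
      linarith
    calc (1 : ℝ) = 1 * 1 := by ring
      _ ≤ R₁ * wd μ s τ := mul_le_mul hR₁ (h2.trans h1) zero_le_one (by linarith)
  have hGpos : ∀ η ∈ G, 0 < ∑ y ∈ Finset.Icc (0 : ℤ) τ,
      WR μ s (Tu μ s (R₁ * wd μ s τ) r τ L) η (2 * (r : ℤ), md μ s (2 * r) + L) τ y := by
    intro η _
    rw [← cf_eq_Tu]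
    exact cf_pos h hwR1 η _ τ
  have hGdep : ∀ η η' : Env, (∀ q ∈ Tu μ s (R₁ * wd μ s τ) r τ L, η q = η' q) → (η ∈ G ↔ η' ∈ G) := by
    intro η η' hh
    rw [hG, Set.mem_ofPred_eq, Set.mem_ofPred_eq, cf_eq_Tu, cf_eq_Tu]
    have h1 : ∀ y : ℤ, WR μ s (Tu μ s (R₁ * wd μ s τ) r τ L) η (2 * (r : ℤ), md μ s (2 * r) + L) τ y =
        WR μ s (Tu μ s (R₁ * wd μ s τ) r τ L) η' (2 * (r : ℤ), md μ s (2 * r) + L) τ y := fun y =>
      WR_dep (μ := μ) (s := s) _ _ τ y fun q hq => hh q hq.2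
    simp only [h1]
  -- the numbers
  obtain ⟨th, hth⟩ : ∃ th : ℝ, th = c * EE μ s r / wd μ s r := ⟨_, rfl⟩
  have hEE1m : 1 ≤ EE μ s m := one_le_EE m
  have hEE1r : 1 ≤ EE μ s r := one_le_EE r
  have hErm : EE μ s r ≤ EE μ s m := hmono hrm
  have hEτr : EE μ s τ ≤ EE μ s r := hmono hτr
  have hthx : (M + C3 + b2 + b3 + (C + 2)) * EE μ s m ≤ th * ((L : ℝ) - 2 * D - 2) := by
    have h1 : c * wd μ s m / 64 ≤ (L : ℝ) - 2 * D - 2 := by
      have h2 : (4 : ℝ) * D ≤ L := by exact_mod_cast hDL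
      linarith
    have h3 : 0 < th := by rw [hth]; positivity
    have h4 := mul_le_mul_of_nonneg_left h1 h3.le
    refine le_trans ?_ h4
    rw [hth, div_mul_eq_mul_div, le_div_iff₀ hwr]
    have h5 := mul_le_mul_of_nonneg_left s2' (show (0 : ℝ) ≤ c ^ 2 / 64 by positivity)
    have h6 : c ^ 2 / 64 * (B0 * EE μ s m * wd μ s r) = (M + C3 + b2 + b3 + (C + 2)) * EE μ s m * wd μ s r := by
      rw [hB0']
      field_simp
    rw [h6] at h5
    calc (M + C3 + b2 + b3 + (C + 2)) * EE μ s m * wd μ s r ≤ c ^ 2 / 64 * (EE μ s r * wd μ s m) := h5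
      _ = c * EE μ s r * (c * wd μ s m / 64) := by ring
  have hlo : lo ((r + τ : ℕ) : ℝ) ≤ (C + 2) * EE μ s r := by
    have h1 : ((r + τ : ℕ) : ℝ) ≤ 2 * r := by
      have : r + τ ≤ 2 * r := by omega
      exact_mod_cast this
    have hr1 : (1 : ℝ) ≤ r := by exact_mod_cast (show 1 ≤ r by omega)
    have h2 : lo ((r + τ : ℕ) : ℝ) ≤ Real.log (4 * r) := by
      unfold lo
      refine Real.log_le_log (by positivity) ?_
      linarith
    rw [Real.log_mul (by norm_num) (by positivity)] at h2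
    have h3 := h.lg r (by omega)
    have h4 : Real.log 4 ≤ 2 := by
      have h5 : (4 : ℝ) = 2 * 2 := by norm_num
      rw [h5, Real.log_mul (by norm_num) (by norm_num)]
      linarith [Real.log_two_lt_d9]
    have h6 : (C + 2) * EE μ s r = C * EE μ s r + 2 * EE μ s r := by ring
    rw [h6]
    linarith
  have hqq : (M + C3) * EE μ s m ≤
      th * ((L : ℝ) - 2 * D - 2) - b2 * EE μ s r - b3 * EE μ s τ - lo ((r + τ : ℕ) : ℝ) := by
    have h1 := mul_le_mul_of_nonneg_left hErm hb2p.le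
    have h2 := mul_le_mul_of_nonneg_left (hEτr.trans hErm) hb3p.le
    have h3 := mul_le_mul_of_nonneg_left hErm (show (0 : ℝ) ≤ C + 2 by positivity)
    linarith
  have hM1E : 100 * (EE μ s m + 2 * (C * EE μ s r * C) + 3) ≤ M1 * EE μ s m := by
    rw [hM1]
    have h1 := mul_le_mul_of_nonneg_left hErm (show (0 : ℝ) ≤ 2 * (C * C) by positivity)
    calc 100 * (EE μ s m + 2 * (C * EE μ s r * C) + 3) = 100 * (EE μ s m + 2 * (C * C) * EE μ s r + 3) := by ring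
      _ ≤ 100 * (EE μ s m + 2 * (C * C) * EE μ s m + 3 * EE μ s m) := by linarith
      _ = 100 * (4 + 2 * (C * C)) * EE μ s m := by ring
  -- the luck
  have hSS : ∀ q ∈ Tu μ s (R₁ * wd μ s τ) r τ L, 2 * (r : ℤ) < q.1 ∧ q.1 ≤ 2 * (r : ℤ) + τ ∧
      |((q.2 : ℝ) - (md μ s (2 * r) + L)) - sl μ s * ((q.1 : ℝ) - 2 * r)| ≤ c * wd μ s m / 8 := by
    intro q hq
    refine ⟨hq.1, hq.2.1, hq.2.2.trans ?_⟩
    have h3 : c * wd μ s r ≤ c * wd μ s m / 32 := by
      have := mul_le_mul_of_nonneg_left s7 hc0.le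
      linarith
    have h4 : 0 < c * wd μ s m := mul_pos hc0 hwm
    linarith
  have hL0' : |(L : ℝ)| ≤ c * wd μ s m / 8 := by
    rw [abs_of_nonneg]
    · exact hL2
    · exact le_trans (by positivity) hL1
  have h2 := hluck m (by omega) r τ L (Tu μ s (R₁ * wd μ s τ) r τ L) G hrm8 hτr hL0' hSS hGm hGdep hGpos b
    (by rw [hb]; linarith) m le_rfl
  have h3 : 4 * C / b = 1 / 100 := by
    rw [hb]
    field_simp
    norm_num
  rw [h3] at h2
  have h6 := hvb b3 hb3p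
  have h7 : ((4 * K3 : ℕ) : ℝ) * C' / b3 = 1 / 100 := by
    rw [hb3]
    have : ((4 * K3 : ℕ) : ℝ) * C' ≠ 0 := by
      have : (0 : ℝ) < ((4 * K3 : ℕ) : ℝ) * C' := by push_cast; positivity
      exact this.ne'
    field_simp
  rw [h7] at h6
  have hmdr1 := h.md_le_nat r
  have h8 : (law μ).real {η | W μ s η ((0 : ℤ), L) r (md μ s r - 2 * D) < Real.exp (-(b2 * EE μ s r))} ≤ 1 / 100 := by
    have h9 := inn_bd h (r := r) (by omega) (k := r) (y := md μ s r - 2 * D) (by omega) (by omega) (by omega) (by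
      rw [← hvd]
      have e2 : c * vA 1 μ s r * r = c * wd μ s r := by unfold wd; ring
      rw [e2]
      have e3 : (0 : ℝ) ≤ D := by exact_mod_cast hD0
      have e4 := mul_pos hc0 hwr
      push_cast
      rw [abs_le]
      constructor <;> linarith) ((0 : ℤ), L) (b := b2) (by rw [hb2]; positivity)
    have h10 : C / b2 = 1 / 100 := by
      rw [hb2]
      field_simp
    rw [h10] at h9
    refine le_trans (measureReal_mono (fun η hη => ?_) (measure_ne_top _ _)) h9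
    rw [Set.mem_ofPred_eq] at hη ⊢
    have hW : 0 < W μ s η ((0 : ℤ), L) r (md μ s r - 2 * D) := W_pos η _ (by omega) (by omega)
    have h11 := Real.log_lt_log hW hη
    rw [Real.log_exp] at h11
    unfold X
    linarith
  -- the end point of the first slab
  have hmd0 := h.md_nonneg m
  have h12 : (law μ).real {η | C3 * EE μ s m < X μ s η 0 m (md μ s m + L) + V μ s η 0 m} ≤ 1 / 100 := by
    have hy0 : 0 ≤ md μ s m + L := by omega
    have hX := (Sub_X (μ := μ) (s := s) 0 (n := m) hy0 hLm).max (Sub.const 0)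
    have hV := (Sub_V (μ := μ) (s := s) 0 m).max (Sub.const 0)
    have i1 : ∫ η, max (X μ s η 0 m (md μ s m + L)) 0 ∂(law μ) ≤ C * EE μ s m := by
      refine h.inn m (by omega) m (md μ s m + L) (by omega) hy0 hLm ?_
      rw [← hvd]
      have e2 : c * vA 1 μ s m * m = c * wd μ s m := by unfold wd; ring
      rw [e2]
      have e5 : (0 : ℝ) ≤ L := by exact_mod_cast hL0
      have e6 : 0 < c * wd μ s m := mul_pos hc0 hwm
      push_cast
      rw [abs_le]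
      constructor <;> linarith
    have i2 : ∫ η, max (V μ s η 0 m) 0 ∂(law μ) ≤ EE μ s m := by
      have j1 := Vp_mean_le (μ := μ) h.em s 0 m
      have j2 := le_EE (μ := μ) (s := s) (le_refl m)
      linarith
    have hXV := hX.add hV
    have i3 : ∫ η, (max (X μ s η 0 m (md μ s m + L)) 0 + max (V μ s η 0 m) 0) ∂(law μ) ≤ (C + 1) * EE μ s m := by
      rw [integral_add (hX.integrable h.em) (hV.integrable h.em)]
      linarith
    have i4 := mkv (μ := μ) (hXV.integrable h.em) (fun η => add_nonneg (le_max_right _ _) (le_max_right _ _)) i3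
      (mul_pos hC3p hEm)
    have i5 : (C + 1) * EE μ s m / (C3 * EE μ s m) = 1 / 100 := by
      rw [hC3]
      have : (C + 1) ≠ 0 := by positivity
      field_simp
    rw [i5] at i4
    refine le_trans (measureReal_mono (fun η hη => ?_) (measure_ne_top _ _)) i4
    rw [Set.mem_ofPred_eq] at hη ⊢
    have j1 := le_max_left (X μ s η 0 m (md μ s m + L)) 0
    have j2 := le_max_left (V μ s η 0 m) 0
    linarith
  have key := step (μ := μ) h (m := m) (r := r) (τ := τ) (L := L) (D := D) (R := R₁ * wd μ s τ) (b := b) (b2 := b2)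
    (b3 := b3) (C3 := C3) (M1 := M1) (M := M) (th := th) (K := K' * EE μ s τ) hτr hrm8 hD0 hDL hDr hLm (by linarith)
    (by omega) hwr hth hpos hG h2 h12 h8 h6 hb2p.le hb3p.le hM1E hqq hKE hM hEE1m hmass
  have h13 := mul_le_mul_of_nonneg_left (mul_le_mul_of_nonneg_left hpG (show (0 : ℝ) ≤ 1 / 4 by norm_num)) hEm.le
  linarith

/-- The mean of the luck at the tilts `s` and `- s`. -/
theorem mean_mir (hEM : Pool.Agent.W_7d29a1_h47.EM μ) (s : ℝ) (n : ℕ) :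
    ∫ η, V μ (-s) η 0 n ∂(law μ) = ∫ η, V μ s η 0 n ∂(law μ) := by
  have h1 := Pool.Agent.W_7d29a1_f21.mp_integral (mp_mir (μ := μ))
    (F := fun η : Env => V μ (-s) η 0 n) (Sub_V (μ := μ) (s := -s) 0 n).1.aestronglyMeasurable
  rw [← h1]
  refine integral_congr_ae (Filter.Eventually.of_forall fun η => ?_)
  show V μ (-s) (mir η) 0 n = V μ s η 0 n
  have h2 := V_mir hEM s η 0 n
  rwa [phiM_zero] at h2

/-- **THE GAP OF SUPERADDITIVITY** of `E log Z_n` at the tilt `s`, between the scales `m` and `2 m`. -/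
theorem gap (h : In μ s c C n₀) : ∃ c' : ℝ, 0 < c' ∧ ∃ n₁ : ℕ, ∀ m : ℕ, n₁ ≤ m →
    2 * ∫ η, V μ s η 0 m ∂(law μ) + c' * EE μ s m ≤ ∫ η, V μ s η 0 (m + m) ∂(law μ) := by
  obtain ⟨c1, hc1, n1, h1⟩ := gap_left h
  obtain ⟨c2, hc2, n2, h2⟩ := gap_left h.mir
  refine ⟨min c1 c2, lt_min hc1 hc2, max n1 n2, fun m hm => ?_⟩
  have hE := EE_pos (μ := μ) (s := s) m
  rcases mass_or (μ := μ) (s := s) h.em h.nd m with hmass | hmass
  · have h3 := h1 m ((le_max_left _ _).trans hm) hmass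
    have h4 := mul_le_mul_of_nonneg_right (min_le_left c1 c2) hE.le
    linarith
  · have h3 := h2 m ((le_max_right _ _).trans hm) hmass
    rw [mean_mir h.em, mean_mir h.em, EE_mir h.em] at h3
    have h4 := mul_le_mul_of_nonneg_right (min_le_right c1 c2) hE.le
    linarith

/-- **THE NON RANDOM FLUCTUATION** at the tilt `s` is exactly of the order of the unit. -/
theorem nonrand (h : In μ s c C n₀) : ∃ c' : ℝ, 0 < c' ∧ ∃ n₁ : ℕ, ∀ m : ℕ, n₁ ≤ m →
    c' * EE μ s m ≤ -∫ η, V μ s η 0 m ∂(law μ) ∧ -∫ η, V μ s η 0 m ∂(law μ) ≤ EE μ s m := by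
  obtain ⟨c', hc', n₁, hg⟩ := gap h
  refine ⟨c' / 2, by positivity, n₁, fun m hm => ⟨?_, ?_⟩⟩
  · have h1 := hg m hm
    have h2 := V_mean_le' (μ := μ) h.em s 0 (m + m)
    linarith
  · have h1 := mean_neg_V (μ := μ) (s := s) h.em (le_refl m)
    have h2 : ∫ η, -V μ s η 0 m ∂(law μ) ≤ ∫ η, max (-V μ s η 0 m) 0 ∂(law μ) :=
      integral_mono ((Sub_V (μ := μ) (s := s) 0 m).neg.integrable h.em)
        (((Sub_V (μ := μ) (s := s) 0 m).neg.max (Sub.const 0)).integrable h.em) fun η => le_max_left _ _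
    rw [integral_neg] at h2
    linarith

end

end Pool.Agent.W_7d29a1_HR
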