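import Pool.Agent.W_7d29a1_HR.CellA
import Pool.Agent.W_7d29a1_HR.NonRand
import Pool.Agent.W_7d29a1_HS.Mom

/-!
MP_7d29a1_pr, TRACK H, part 4 (at the tilt `s`): all starts of a cell are unlucky with positive probability (model:
`W_7d29a1_NR.Cell`, second part). (helper32)
-/

set_option autoImplicit false

namespace Pool.Agent.W_7d29a1_HR

open MeasureTheory ProbabilityTheory Filter Topology
open Pool.Agent.W_7d29a1_F Pool.Agent.W_7d29a1_h4g Pool.Agent.W_7d29a1_H Pool.Agent.W_7d29a1_HS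

noncomputable section

variable {μ : Measure ℝ} {s : ℝ} [IsProbabilityMeasure μ] {c C : ℝ} {n₀ : ℕ}

/-- THE CELL: all starts of a cell are unlucky with positive probability. -/
theorem cell_prob (h : In μ s c C n₀) : ∃ κ p : ℝ, 0 < κ ∧ 0 < p ∧ p ≤ 1 ∧ ∃ J n₁ : ℕ, ∀ r l w : ℕ, n₁ ≤ r → 2 ^ J * r ≤ l →
    1 ≤ w → (w : ℝ) ≤ c * wd μ s r → ∀ t y0 : ℤ,
    p ≤ (law μ).real {η | sm μ s η (Finset.Ico y0 (y0 + w)) t l ≤ -(κ * EE μ s l)} := by
  have hc0 := h.c0
  have hc1 := h.c1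
  have hC1 := h.C1
  have hC0 : 0 < C := lt_of_lt_of_le one_pos hC1
  obtain ⟨c', hc', n1, hnr⟩ := nonrand h
  obtain ⟨J, n2, hJ⟩ := scale_a h (2 * C / c')
  obtain ⟨A, hA0, hA⟩ := unluck_pow h 2 (by norm_num)
  have hsl := h.sl_lt
  obtain ⟨nI, hvA⟩ := eventually_atTop.1 (h.tv.eventually_le_const (show (0 : ℝ) < 1 - sl μ s by linarith))
  obtain ⟨A', hA'⟩ : ∃ A' : ℝ, A' = A + 1 := ⟨_, rfl⟩
  have hA'0 : 0 < A' := by rw [hA']; linarith
  obtain ⟨κ, hκ⟩ : ∃ κ : ℝ, κ = c' / 2 := ⟨_, rfl⟩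
  have hκ0 : 0 < κ := by rw [hκ]; positivity
  have hp0 : 0 < κ ^ 2 / (4 * A') := by positivity
  refine ⟨κ / 2, min (κ ^ 2 / (4 * A')) 1, by positivity, lt_min hp0 one_pos, min_le_right _ _, J, n1 + n2 + nI + n₀ + 4,
    fun r l w hr hrl hw1 hw t y0 => ?_⟩
  have hrl' : r ≤ l := by
    have : 1 * r ≤ 2 ^ J * r := Nat.mul_le_mul_right r Nat.one_le_two_pow
    omega
  have hEl := EE_pos (μ := μ) (s := s) l
  have hEr := EE_pos (μ := μ) (s := s) r
  have hmono := EE_mono (μ := μ) (s := s)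
  have hwr : c * wd μ s r ≤ r * (1 - sl μ s) := by
    unfold wd
    have h1 := hvA r (by omega)
    have h2 := h.vA_nonneg r
    have h3 : (0 : ℝ) ≤ r := Nat.cast_nonneg r
    have h4 : r * vA 1 μ s r ≤ r * (1 - sl μ s) := mul_le_mul_of_nonneg_left h1 h3
    have h5 : c * (r * vA 1 μ s r) ≤ 1 * (r * vA 1 μ s r) := mul_le_mul_of_nonneg_right hc1 (mul_nonneg h3 h2)
    linarith
  -- the base cell
  obtain ⟨I, hI⟩ : ∃ I : Finset ℤ, I = Finset.Ico (md μ s r) (md μ s r + w) := ⟨_, rfl⟩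
  have hIne : I.Nonempty := ⟨md μ s r, by rw [hI, Finset.mem_Ico]; omega⟩
  have hmdr1 := md_le (μ := μ) (s := s) r
  have hmdr2 := lt_md (μ := μ) (s := s) r
  have hmd0 := h.md_nonneg r
  have hIr : ∀ x ∈ I, (0 ≤ x ∧ x ≤ r) ∧ ep μ s r x ≤ C * EE μ s r := by
    intro x hx
    rw [hI, Finset.mem_Ico] at hx
    have h1 : (md μ s r : ℝ) ≤ x := by exact_mod_cast hx.1
    have h2 : (x : ℝ) + 1 ≤ md μ s r + w := by
      have : x + 1 ≤ md μ s r + w := by omega
      exact_mod_cast this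
    have h3 : x ≤ r := by
      have : (x : ℝ) ≤ r := by
        have : (r : ℝ) * (1 - sl μ s) = r - sl μ s * r := by ring
        linarith
      exact_mod_cast this
    refine ⟨⟨by omega, h3⟩, h.inn r (by omega) r x (by omega) (by omega) h3 ?_⟩
    have e2 : c * vA 1 μ s r * r = c * wd μ s r := by unfold wd; ring
    rw [e2, abs_le]
    constructor <;> linarith
  have hmean := sm_mean (μ := μ) h.em r l hIne (fun x hx => (hIr x hx).1) (B := C * EE μ s r) fun x hx => (hIr x hx).2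
  have h1 := (hnr (r + l) (by omega)).1
  have h2 : C * EE μ s r ≤ c' / 2 * EE μ s l := by
    have h3 := hJ r l (by omega) hrl
    have h4 := mul_le_mul_of_nonneg_left h3 (show 0 ≤ c' / 2 by positivity)
    have h5 : c' / 2 * (2 * C / c' * EE μ s r) = C * EE μ s r := by field_simp
    linarith
  have h3 : EE μ s l ≤ EE μ s (r + l) := hmono (by omega)
  have h4 : ∫ η, sm μ s η I r l ∂(law μ) ≤ -(κ * EE μ s l) := by
    rw [hκ]
    have h5 := mul_le_mul_of_nonneg_left h3 hc'.le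
    linarith
  -- the second moment
  obtain ⟨g, hg⟩ : ∃ g : Env → ℝ, g = fun η => max (-V μ s η ((r : ℤ), md μ s r) l) 0 := ⟨_, rfl⟩
  have hmr : md μ s r ∈ I := by rw [hI, Finset.mem_Ico]; omega
  have hVsub : Sub fun η : Env => max (-V μ s η 0 l) 0 := (Sub_V (μ := μ) (s := s) 0 l).neg.max (Sub.const 0)
  have hgsub : Sub g := by rw [hg]; exact (Sub_V (μ := μ) (s := s) _ l).neg.max (Sub.const 0)
  have hgint : Integrable (fun η => g η ^ 2) (law μ) := by
    have := Sub_pow_integrable (μ := μ) h.em hgsub 2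
    simpa using this
  have hg2 : ∫ η, g η ^ 2 ∂(law μ) ≤ A' * EE μ s l ^ 2 := by
    have h5 := Pool.Agent.W_7d29a1_f21.mp_integral (mp_sh (μ := μ) ((r : ℤ), md μ s r))
      (F := fun η : Env => max (-V μ s η 0 l) 0 ^ 2) (hVsub.1.pow_const 2).aestronglyMeasurable
    have h6 : ∫ η, g η ^ 2 ∂(law μ) = ∫ η, max (-V μ s η 0 l) 0 ^ 2 ∂(law μ) := by
      rw [← h5]
      refine integral_congr_ae (Filter.Eventually.of_forall fun η => ?_)
      show g η ^ 2 = max (-V μ s (sh ((r : ℤ), md μ s r) η) 0 l) 0 ^ 2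
      rw [V_sh, zero_add, hg]
    rw [h6, hA']
    have h7 := hA l (by omega)
    have h8 : 0 ≤ EE μ s l ^ 2 := sq_nonneg _
    linarith
  have h5 := pz (μ := μ) (f := fun η => sm μ s η I r l) (g := g) ((Sub_sm (μ := μ) hIne r l).integrable h.em)
    (measurable_sm (μ := μ) (s := s) I r l) (fun η => by
      rw [hg]
      exact max_le_max (neg_le_neg (V_le_sm η r l hmr)) le_rfl) hgint hA'0 hEl hκ0 hg2 h4
  refine (min_le_left _ _).trans (h5.trans (le_of_eq ?_))
  -- translation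
  have h6 := real_sh (μ := μ) (t - r, y0 - md μ s r) (E := {η | sm μ s η I r l ≤ -(κ / 2 * EE μ s l)})
    (measurableSet_le (measurable_sm (μ := μ) (s := s) I r l) measurable_const)
  rw [← h6]
  congr 1
  ext η
  rw [Set.mem_ofPred_eq, Set.mem_ofPred_eq, Set.mem_ofPred_eq]
  have h7 : sm μ s (sh (t - r, y0 - md μ s r) η) I r l = sm μ s η (Finset.Ico y0 (y0 + w)) t l := by
    unfold sm
    congr 1
    refine Finset.sum_nbij' (fun x => x + (y0 - md μ s r)) (fun x => x - (y0 - md μ s r)) ?_ ?_ ?_ ?_ ?_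
    · intro x hx
      rw [hI, Finset.mem_Ico] at hx
      rw [Finset.mem_Ico]
      omega
    · intro x hx
      rw [Finset.mem_Ico] at hx
      rw [hI, Finset.mem_Ico]
      omega
    · intro x _
      ring
    · intro x _
      ring
    · intro x _
      rw [V_sh]
      congr 2
      ext
      · show (r : ℤ) + (t - r) = t
        ring
      · rfl
  rw [h7]

end

end Pool.Agent.W_7d29a1_HR
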