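import Pool.Agent.W_7d29a1_HR.NonRand
import Pool.Agent.W_7d29a1_HS.FinS

/-!
MP_7d29a1_pr, TRACK H, part 4: THE NON RANDOM FLUCTUATION of `log Z_n` at the force `h` on the probability space of the problem
(model: `W_7d29a1_NR.Law`). (helper87)
-/

set_option autoImplicit false

namespace Pool.Agent.W_7d29a1_HR

open MeasureTheory ProbabilityTheory Filter Topology
open Pool.Agent.W_7d29a1_F Pool.Agent.W_7d29a1_h4g Pool.Agent.W_7d29a1_H Pool.Agent.W_7d29a1_HS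
open Pool.Agent.W_7d29a1_h47 (Lam)
open Pool.Agent.W_7d29a1_SR (toF)

noncomputable section

variable {Ω : Type*} [MeasurableSpace Ω] {P : Measure Ω} [IsProbabilityMeasure P] {ω : ℕ × ℤ → Ω → ℝ} {β : ℝ}
  {μ : Measure ℝ} [IsProbabilityMeasure μ] {h c C : ℝ} {n₀ : ℕ}

/-- **THE NON RANDOM FLUCTUATION** `n F(h) - E log Z_n(h)` is at least of the order of the standard deviation, and so is the gap
of superadditivity `E log Z_(2 n)(h) - 2 E log Z_n(h)`. -/
theorem nonrand_P (hI : In μ (2 * h) c C n₀) (hmp : MeasurePreserving (fun x => toF β fun p => ω p x) P (law μ)) :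
    ∃ c' : ℝ, 0 < c' ∧ ∀ᶠ n : ℕ in atTop,
      c' * sgm P β h ω n ≤ n * (Lam μ h - Real.log 2) - ∫ x, Real.log (parZ β h (fun p => ω p x) n) ∂P ∧
      c' * sgm P β h ω n ≤ ∫ x, Real.log (parZ β h (fun p => ω p x) (2 * n)) ∂P -
        2 * ∫ x, Real.log (parZ β h (fun p => ω p x) n) ∂P := by
  obtain ⟨a, A, b, B, ha, hA, hb, hB, n₁, hn₁, hsc⟩ := scales (P := P) (β := β) (ω := ω) hI hmp
  obtain ⟨c₁, hc₁, n₂, h1⟩ := nonrand hI
  obtain ⟨c₂, hc₂, n₃, h2⟩ := gap hI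
  have hm : 0 < min c₁ c₂ := lt_min hc₁ hc₂
  refine ⟨min c₁ c₂ / A, by positivity, ?_⟩
  filter_upwards [eventually_ge_atTop n₁, eventually_ge_atTop n₂, eventually_ge_atTop n₃] with n e1 e2 e3
  obtain ⟨s1, s2, s3, s4, s5⟩ := hsc n e1
  have hE : 0 < EE μ (2 * h) n := EE_pos (μ := μ) (s := 2 * h) n
  have k0 : min c₁ c₂ / A * sgm P β h ω n ≤ min c₁ c₂ * EE μ (2 * h) n := by
    rw [div_mul_eq_mul_div, div_le_iff₀ hA]
    have := mul_le_mul_of_nonneg_left s2 hm.le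
    linarith
  have k1 : min c₁ c₂ * EE μ (2 * h) n ≤ c₁ * EE μ (2 * h) n := mul_le_mul_of_nonneg_right (min_le_left _ _) hE.le
  have k2 : min c₁ c₂ * EE μ (2 * h) n ≤ c₂ * EE μ (2 * h) n := mul_le_mul_of_nonneg_right (min_le_right _ _) hE.le
  have g1 := (h1 n e2).1
  have g2 := h2 n e3
  rw [← two_mul] at g2
  rw [mean_parZ hI.em hmp, mean_parZ hI.em hmp]
  push_cast
  constructor <;> linarith

end

end Pool.Agent.W_7d29a1_HR
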