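import Pool.Agent.W_7d29a1_HR.SepG
import Pool.Agent.W_7d29a1_F.LuckA

/-!
MP_7d29a1_pr, TRACK H, part 4, at the tilt `s`. The non random fluctuation of `log Z_n`: the exponent of the separation from the start
`(0, x)`. (Model: `W_7d29a1_NR.Af`, helper87.)
-/

namespace Pool.Agent.W_7d29a1_HR

open MeasureTheory ProbabilityTheory Filter Topology
open Pool.Agent.W_7d29a1_F Pool.Agent.W_7d29a1_h4g Pool.Agent.W_7d29a1_H
open Pool.Agent.W_7d29a1_L (Mh T kap Bx mem_Bx Mh_nonneg le_Mh Sub_Mh Sub_T exp_T T_sh)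
open Pool.Agent.W_7d29a1_HL Pool.Agent.W_7d29a1_HS

noncomputable section

variable {μ : Measure ℝ} {s : ℝ}

/-- The exponent of the separation. -/
def af (μ : Measure ℝ) (s : ℝ) (S : Set Pt) (l : ℤ → ℤ) (th z : ℝ) (r m : ℕ) (y1 y2 x : ℤ) (ξ : Env) : ℝ :=
  lo (∑ y ∈ Finset.Icc (0 : ℤ) m, WR μ s Sᶜ ξ ((0 : ℤ), x) m y) +
    (lo (Real.exp (th * (z - x)) * W μ s ξ ((0 : ℤ), x) r (y1 - x)) +
      lo (Real.exp (th * (z - x)) * WR μ s (Rg l r) ξ ((0 : ℤ), x) (3 * r) (y2 - x)))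

theorem af_parts (S : Set Pt) (l : ℤ → ℤ) (th z : ℝ) (r m : ℕ) (y1 y2 x : ℤ) (ξ : Env) :
    0 ≤ lo (∑ y ∈ Finset.Icc (0 : ℤ) m, WR μ s Sᶜ ξ ((0 : ℤ), x) m y) ∧
      0 ≤ lo (Real.exp (th * (z - x)) * W μ s ξ ((0 : ℤ), x) r (y1 - x)) ∧
      0 ≤ lo (Real.exp (th * (z - x)) * WR μ s (Rg l r) ξ ((0 : ℤ), x) (3 * r) (y2 - x)) :=
  ⟨lo_nonneg (Finset.sum_nonneg fun y _ => WR_nonneg _ _ _ _ _),
    lo_nonneg (mul_nonneg (Real.exp_pos _).le (W_nonneg _ _ _ _)),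
    lo_nonneg (mul_nonneg (Real.exp_pos _).le (WR_nonneg _ _ _ _ _))⟩

theorem af_nonneg (S : Set Pt) (l : ℤ → ℤ) (th z : ℝ) (r m : ℕ) (y1 y2 x : ℤ) (ξ : Env) :
    0 ≤ af μ s S l th z r m y1 y2 x ξ := by
  obtain ⟨h1, h2, h3⟩ := af_parts (μ := μ) S l th z r m y1 y2 x ξ
  unfold af
  linarith

/-- THE SEPARATION in the form which is used. -/
theorem af_sep [IsProbabilityMeasure μ] {S : Set Pt} {l : ℤ → ℤ} (hl : ∀ t, l t ≤ l (t + 1)) {th z : ℝ} {r m k0 : ℕ} {y1 y2 x L : ℤ} (ξ : Env)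
    (hL : x ≤ L) (hx : x ≤ 0) (hth : 0 ≤ th) (hn : r + k0 ≤ m) (hk : k0 ≤ 2 * r) (h1 : y1 ≤ l r)
    (hT : ∀ p ∈ S, (r : ℤ) < p.1 ∧ p.1 ≤ r + k0 ∧ l p.1 < p.2)
    (hp1 : 0 < WR μ s (Lw l) ξ ((r : ℤ), y1) (2 * r) (y2 - y1)) (hp2 : 0 < W μ s ξ ((0 : ℤ), L) r (y1 - L)) :
    Real.exp (V μ s ξ ((0 : ℤ), x) m) ≤ Real.exp (af μ s S l th z r m y1 y2 x ξ) +
      Real.exp (V μ s ξ ((0 : ℤ), L) m + af μ s S l th z r m y1 y2 x ξ -
        (th * z - max (-Real.log (W μ s ξ ((0 : ℤ), L) r (y1 - L))) 0 -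
          max (-Real.log (WR μ s (Lw l) ξ ((r : ℤ), y1) (2 * r) (y2 - y1))) 0 - lo k0)) := by
  have key := sep_gen (μ := μ) hl S ξ hL r k0 (2 * r) m hn hk h1 hT hp1 hp2
  obtain ⟨a1, a2, a3⟩ := af_parts (μ := μ) S l th z r m y1 y2 x ξ
  obtain ⟨A, hA⟩ : ∃ A : ℝ, A = af μ s S l th z r m y1 y2 x ξ := ⟨_, rfl⟩
  obtain ⟨AV, hAV⟩ : ∃ AV : ℝ, AV = ∑ y ∈ Finset.Icc (0 : ℤ) m, WR μ s Sᶜ ξ ((0 : ℤ), x) m y := ⟨_, rfl⟩
  obtain ⟨W0, hW0⟩ : ∃ W0 : ℝ, W0 = W μ s ξ ((0 : ℤ), x) r (y1 - x) := ⟨_, rfl⟩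
  obtain ⟨RG, hRG⟩ : ∃ RG : ℝ, RG = WR μ s (Rg l r) ξ ((0 : ℤ), x) (3 * r) (y2 - x) := ⟨_, rfl⟩
  obtain ⟨P, hP⟩ : ∃ P : ℝ, P = WR μ s (Lw l) ξ ((r : ℤ), y1) (2 * r) (y2 - y1) := ⟨_, rfl⟩
  obtain ⟨w, hw⟩ : ∃ w : ℝ, w = W μ s ξ ((0 : ℤ), L) r (y1 - L) := ⟨_, rfl⟩
  have hr3 : r + 2 * r = 3 * r := by ring
  have hAe : A = lo AV + (lo (Real.exp (th * (z - x)) * W0) + lo (Real.exp (th * (z - x)) * RG)) := by
    rw [hA, hAV, hW0, hRG]
    rfl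
  rw [hr3, ← hAV, ← hW0, ← hRG, ← hP, ← hw] at key
  rw [← hAV] at a1
  rw [← hW0] at a2
  rw [← hRG] at a3
  rw [← hP] at hp1
  rw [← hw] at hp2
  rw [← hP, ← hw, ← hA]
  have hAV0 : 0 ≤ AV := hAV ▸ Finset.sum_nonneg fun y _ => WR_nonneg _ _ _ _ _
  have hW00 : 0 ≤ W0 := hW0 ▸ W_nonneg _ _ _ _
  have hRG0 : 0 ≤ RG := hRG ▸ WR_nonneg _ _ _ _ _
  have b1 : AV ≤ Real.exp A := by
    have h2 := exp_lo hAV0
    have h3 : Real.exp (lo AV) ≤ Real.exp A := Real.exp_le_exp.2 (by rw [hAe]; linarith)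
    linarith
  have hthx : th * z ≤ th * (z - x) := by
    refine mul_le_mul_of_nonneg_left ?_ hth
    have : (x : ℝ) ≤ 0 := by exact_mod_cast hx
    linarith
  have gen : ∀ f : ℝ, 0 ≤ f → lo (Real.exp (th * (z - x)) * f) ≤ A → f ≤ Real.exp (A - th * z) := by
    intro f hf hfA
    have h2 := exp_lo (mul_nonneg (Real.exp_pos (th * (z - x))).le hf)
    have h3 : Real.exp (th * (z - x)) * f ≤ Real.exp A := by
      have := Real.exp_le_exp.2 hfA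
      linarith
    have h4 : Real.exp (th * z) * f ≤ Real.exp A :=
      (mul_le_mul_of_nonneg_right (Real.exp_le_exp.2 hthx) hf).trans h3
    rw [Real.exp_sub, le_div_iff₀ (Real.exp_pos _)]
    linarith
  have b2 := gen W0 hW00 (by rw [hAe]; linarith)
  have b3 := gen RG hRG0 (by rw [hAe]; linarith)
  have b4 : 1 / w ≤ Real.exp (max (-Real.log w) 0) := by
    rw [one_div, ← Real.exp_log (inv_pos.2 hp2), Real.log_inv]
    exact Real.exp_le_exp.2 (le_max_left _ _)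
  have b5 : 1 / P ≤ Real.exp (max (-Real.log P) 0) := by
    rw [one_div, ← Real.exp_log (inv_pos.2 hp1), Real.log_inv]
    exact Real.exp_le_exp.2 (le_max_left _ _)
  have b6 : 1 ≤ Real.exp (max (-Real.log P) 0) := Real.one_le_exp (le_max_right _ _)
  have hk0 : (0 : ℝ) ≤ k0 := Nat.cast_nonneg _
  have b7 : W0 + k0 * (RG / P) ≤ Real.exp (A - th * z) * (Real.exp (lo k0) * Real.exp (max (-Real.log P) 0)) := by
    rw [exp_lo hk0]
    have h2 : RG / P = RG * (1 / P) := by ring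
    have h3 : RG * (1 / P) ≤ Real.exp (A - th * z) * Real.exp (max (-Real.log P) 0) :=
      mul_le_mul b3 b5 (by positivity) (Real.exp_pos _).le
    have h4 : W0 ≤ Real.exp (A - th * z) * Real.exp (max (-Real.log P) 0) := by
      have h5 := mul_le_mul_of_nonneg_left b6 (Real.exp_pos (A - th * z)).le
      linarith
    have h5 := mul_le_mul_of_nonneg_left h3 hk0
    rw [h2]
    linarith
  have b8 : (W0 + k0 * (RG / P)) / w ≤ Real.exp (A - th * z) * (Real.exp (lo k0) * Real.exp (max (-Real.log P) 0)) *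
      Real.exp (max (-Real.log w) 0) := by
    have h2 : (W0 + k0 * (RG / P)) / w = (W0 + k0 * (RG / P)) * (1 / w) := by ring
    rw [h2]
    exact mul_le_mul b7 b4 (by positivity) (by positivity)
  have b9 := mul_le_mul_of_nonneg_left b8 (Real.exp_pos (V μ s ξ ((0 : ℤ), L) m)).le
  have b10 : Real.exp (V μ s ξ ((0 : ℤ), L) m) * (Real.exp (A - th * z) * (Real.exp (lo k0) *
      Real.exp (max (-Real.log P) 0)) * Real.exp (max (-Real.log w) 0)) =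
      Real.exp (V μ s ξ ((0 : ℤ), L) m + A - (th * z - max (-Real.log w) 0 - max (-Real.log P) 0 - lo k0)) := by
    rw [← Real.exp_add, ← Real.exp_add, ← Real.exp_add, ← Real.exp_add]
    congr 1
    ring
  rw [b10] at b9
  linarith

variable [IsProbabilityMeasure μ] {c C : ℝ} {n₀ : ℕ}

theorem lo_bd (hEM : Pool.Agent.W_7d29a1_h47.EM μ) {f g : Env → ℝ} (hf : Measurable f) (h0 : ∀ η, 0 ≤ f η)
    (h1 : ∀ η, f η ≤ Real.exp (g η)) (hg : Sub g) :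
    (Sub fun η => lo (f η)) ∧ ∫ η, lo (f η) ∂(law μ) ≤ ∫ η, max (g η) 0 ∂(law μ) + 1 := by
  have h2 : ∀ η, lo (f η) ≤ max (g η) 0 + 1 := fun η => (lo_mono (h0 η) (h1 η)).trans (lo_exp (g η))
  have h3 : Sub fun η => max (g η) 0 := hg.max (Sub.const 0)
  have hm : Measurable fun η => lo (f η) := by
    unfold lo
    exact Real.measurable_log.comp (measurable_const.add hf)
  have h4 : Sub fun η => lo (f η) := Sub.of_le hm (Sub.const 0) (h3.add (Sub.const 1)) (fun η => lo_nonneg (h0 η)) h2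
  refine ⟨h4, ?_⟩
  have h5 := integral_mono (h4.integrable hEM) ((h3.integrable hEM).add (integrable_const (1 : ℝ))) h2
  have h6 : ∫ η, ((fun η : Env => max (g η) 0) + fun _ : Env => (1 : ℝ)) η ∂(law μ) = ∫ η, max (g η) 0 ∂(law μ) + 1 := by
    show ∫ η, (max (g η) 0 + (1 : ℝ)) ∂(law μ) = _
    rw [integral_add (h3.integrable hEM) (integrable_const _)]
    simp
  rw [h6] at h5
  exact h5

theorem pos_V (hEM : Pool.Agent.W_7d29a1_h47.EM μ) (a : Pt) (n : ℕ) : ∫ η, max (V μ s η a n) 0 ∂(law μ) ≤ EE μ s n := by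
  have hsub : Sub fun η => max (V μ s η 0 n) 0 := (Sub_V (μ := μ) (s := s) 0 n).max (Sub.const 0)
  have h0 := Pool.Agent.W_7d29a1_f21.mp_integral (mp_sh (μ := μ) a)
    (F := fun η : Env => max (V μ s η 0 n) 0) hsub.1.aestronglyMeasurable
  have h1 : ∫ η, max (V μ s η a n) 0 ∂(law μ) = ∫ η, max (V μ s η 0 n) 0 ∂(law μ) := by
    rw [← h0]
    refine integral_congr_ae (Filter.Eventually.of_forall fun η => ?_)
    show max (V μ s η a n) 0 = max (V μ s (sh a η) 0 n) 0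
    rw [V_sh, zero_add]
  rw [h1]
  have hV : Integrable (fun η => V μ s η 0 n) (law μ) := (Sub_V (μ := μ) (s := s) 0 n).integrable hEM
  have hI : Integrable (fun η => max (-V μ s η 0 n) 0) (law μ) :=
    ((Sub_V (μ := μ) (s := s) 0 n).neg.max (Sub.const 0)).integrable hEM
  have h3 := mean_neg_V (μ := μ) (s := s) hEM (le_refl n)
  have h3' := integral_V_nonpos (μ := μ) hEM s n
  have h7 : ∀ η, max (V μ s η 0 n) 0 = V μ s η 0 n + max (-V μ s η 0 n) 0 := by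
    intro η
    rcases le_total 0 (V μ s η 0 n) with h0 | h0
    · rw [max_eq_left h0, max_eq_right (by linarith)]
      ring
    · rw [max_eq_right h0, max_eq_left (by linarith)]
      ring
  have h8 : ∫ η, max (V μ s η 0 n) 0 ∂(law μ) = ∫ η, V μ s η 0 n ∂(law μ) + ∫ η, max (-V μ s η 0 n) 0 ∂(law μ) := by
    rw [← integral_add hV hI]
    exact integral_congr_ae (ae_of_all _ h7)
  linarith

/-- THE MEAN of the exponent. -/
theorem af_mean (h : In μ s c C n₀) (S : Set Pt) (l : ℤ → ℤ) {th z : ℝ} {r m : ℕ} {y1 y2 : ℤ} (hr : n₀ ≤ r)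
    (hw : 0 < wd μ s r) (ht : |th| * wd μ s r ≤ c * EE μ s r) (hth : 0 ≤ th)
    (hy1 : z ≤ (y1 : ℝ) - sl μ s * r) (hy2 : z ≤ (y2 : ℝ) - sl μ s * (3 * r : ℕ)) (x : ℤ) :
    Sub (af μ s S l th z r m y1 y2 x) ∧ ∫ ξ, af μ s S l th z r m y1 y2 x ξ ∂(law μ) ≤ EE μ s m + 2 * (C * EE μ s r * C) + 3 := by
  have hEM := h.em
  obtain ⟨s1, t1⟩ := lo_bd (μ := μ) hEM (f := fun ξ => ∑ y ∈ Finset.Icc (0 : ℤ) m, WR μ s Sᶜ ξ ((0 : ℤ), x) m y)
    (g := fun ξ => V μ s ξ ((0 : ℤ), x) m) (Finset.measurable_sum _ fun y _ => measurable_WR _ _ _ _)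
    (fun ξ => Finset.sum_nonneg fun y _ => WR_nonneg _ _ _ _ _) (fun ξ => by
      rw [exp_V]
      exact Finset.sum_le_sum fun y _ => WR_le_W _ _ _ _ _) (Sub_V _ _)
  obtain ⟨s2, t2⟩ := lo_bd (μ := μ) hEM (f := fun ξ => Real.exp (th * (z - x)) * W μ s ξ ((0 : ℤ), x) r (y1 - x))
    (g := fun ξ => T μ s (sl μ s) th ξ ((0 : ℤ), x) r) ((measurable_W _ _ _).const_mul _)
    (fun ξ => mul_nonneg (Real.exp_pos _).le (W_nonneg _ _ _ _)) (fun ξ => by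
      have h1 := W_le_T (μ := μ) (s := s) (t := th) ξ ((0 : ℤ), x) r (y1 - x)
      have h2 : z - x ≤ ((y1 - x : ℤ) : ℝ) - sl μ s * r := by
        push_cast
        linarith
      exact (mul_le_mul_of_nonneg_right (Real.exp_le_exp.2 (mul_le_mul_of_nonneg_left h2 hth)) (W_nonneg _ _ _ _)).trans h1)
    (Sub_T (μ := μ) _ r)
  obtain ⟨s3, t3⟩ := lo_bd (μ := μ) hEM
    (f := fun ξ => Real.exp (th * (z - x)) * WR μ s (Rg l r) ξ ((0 : ℤ), x) (3 * r) (y2 - x))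
    (g := fun ξ => T μ s (sl μ s) th ξ ((0 : ℤ), x) (3 * r)) ((measurable_WR _ _ _ _).const_mul _)
    (fun ξ => mul_nonneg (Real.exp_pos _).le (WR_nonneg _ _ _ _ _)) (fun ξ => by
      have h1 := W_le_T (μ := μ) (s := s) (t := th) ξ ((0 : ℤ), x) (3 * r) (y2 - x)
      have h2 : z - x ≤ ((y2 - x : ℤ) : ℝ) - sl μ s * (3 * r : ℕ) := by
        push_cast at hy2 ⊢
        linarith
      exact (mul_le_mul_of_nonneg_left (WR_le_W _ _ _ _ _) (Real.exp_pos _).le).trans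
        ((mul_le_mul_of_nonneg_right (Real.exp_le_exp.2 (mul_le_mul_of_nonneg_left h2 hth)) (W_nonneg _ _ _ _)).trans h1))
    (Sub_T (μ := μ) _ (3 * r))
  have u1 := pos_V (μ := μ) (s := s) hEM ((0 : ℤ), x) m
  have u2 := luckT (μ := μ) h hr ht (l := r) (by omega) hw ((0 : ℤ), x)
  have u3 := luckT (μ := μ) h hr ht (l := 3 * r) (by omega) hw ((0 : ℤ), x)
  have s23 := s2.add s3
  have s123 := s1.add s23
  refine ⟨s123, ?_⟩
  have e1 : ∫ ξ, af μ s S l th z r m y1 y2 x ξ ∂(law μ) =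
      ∫ ξ, lo (∑ y ∈ Finset.Icc (0 : ℤ) m, WR μ s Sᶜ ξ ((0 : ℤ), x) m y) ∂(law μ) +
      (∫ ξ, lo (Real.exp (th * (z - x)) * W μ s ξ ((0 : ℤ), x) r (y1 - x)) ∂(law μ) +
      ∫ ξ, lo (Real.exp (th * (z - x)) * WR μ s (Rg l r) ξ ((0 : ℤ), x) (3 * r) (y2 - x)) ∂(law μ)) := by
    rw [← integral_add (s2.integrable hEM) (s3.integrable hEM), ← integral_add (s1.integrable hEM) (s23.integrable hEM)]
    rfl
  rw [e1]
  linarith

omit [IsProbabilityMeasure μ] in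
/-- The exponent depends on the sites of the slab off the strip. -/
theorem af_dep {S : Set Pt} {l : ℤ → ℤ} {th z : ℝ} {r m : ℕ} {y1 y2 : ℤ} (hrm : 3 * r ≤ m)
    (hS : ∀ p ∈ S, (r : ℤ) < p.1 ∧ l p.1 < p.2) (x : ℤ) :
    DependsOn (af μ s S l th z r m y1 y2 x) (Sᶜ ∩ rows 0 m) := by
  intro ξ ξ' hh
  have d1 : ∀ y : ℤ, WR μ s Sᶜ ξ ((0 : ℤ), x) m y = WR μ s Sᶜ ξ' ((0 : ℤ), x) m y := fun y =>
    WR_dep (μ := μ) (s := s) Sᶜ _ m y fun p hp => hh p ⟨hp.2, by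
      have h1 := hp.1.1
      have h2 := hp.1.2.1
      simp only [zero_add] at h1 h2
      exact ⟨h1, h2⟩⟩
  have d2 : W μ s ξ ((0 : ℤ), x) r (y1 - x) = W μ s ξ' ((0 : ℤ), x) r (y1 - x) :=
    W_dep (μ := μ) (s := s) _ _ _ fun p hp => by
      have h1 := hp.1
      have h2 := hp.2.1
      simp only [zero_add] at h1 h2
      exact hh p ⟨fun hpS => by have := (hS p hpS).1; omega, ⟨h1, by omega⟩⟩
  have d3 : WR μ s (Rg l r) ξ ((0 : ℤ), x) (3 * r) (y2 - x) = WR μ s (Rg l r) ξ' ((0 : ℤ), x) (3 * r) (y2 - x) :=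
    WR_dep (μ := μ) (s := s) (Rg l r) _ _ _ fun p hp => by
      have h1 := hp.1.1
      have h2 := hp.1.2.1
      simp only [zero_add] at h1 h2
      refine hh p ⟨fun hpS => ?_, ⟨h1, by push_cast at h2; omega⟩⟩
      have h3 := hS p hpS
      rcases hp.2 with h4 | h4
      · omega
      · omega
  show af μ s S l th z r m y1 y2 x ξ = af μ s S l th z r m y1 y2 x ξ'
  unfold af
  rw [d2, d3]
  simp only [d1]

end

end Pool.Agent.W_7d29a1_HR
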