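import Pool.Agent.W_7d29a1_HS.Scale
import Pool.Agent.W_7d29a1_F.CoreB2
import Pool.Agent.W_7d29a1_h60.LuckBound

/-!
MP_7d29a1_pr, TRACK H, part 4 (at the tilt `s`): the soft maximum of the free energies over a cell of starts (model:
`W_7d29a1_NR.Cell`, first part). (helper32)
-/

set_option autoImplicit false

namespace Pool.Agent.W_7d29a1_HR

open MeasureTheory ProbabilityTheory Filter Topology
open Pool.Agent.W_7d29a1_F Pool.Agent.W_7d29a1_h4g Pool.Agent.W_7d29a1_H Pool.Agent.W_7d29a1_HS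

noncomputable section

variable {μ : Measure ℝ} {s : ℝ}

/-- The soft maximum over the starts `(t, x)`, `x ∈ I`. -/
def sm (μ : Measure ℝ) (s : ℝ) (η : Env) (I : Finset ℤ) (t : ℤ) (l : ℕ) : ℝ :=
  Real.log (∑ x ∈ I, Real.exp (V μ s η (t, x) l))

/-- Its weights. -/
def pw (μ : Measure ℝ) (s : ℝ) (η : Env) (I : Finset ℤ) (t : ℤ) (l : ℕ) (x : ℤ) : ℝ :=
  Real.exp (V μ s η (t, x) l) / ∑ x ∈ I, Real.exp (V μ s η (t, x) l)

theorem sm_pos (η : Env) {I : Finset ℤ} (hI : I.Nonempty) (t : ℤ) (l : ℕ) : 0 < ∑ x ∈ I, Real.exp (V μ s η (t, x) l) :=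
  Finset.sum_pos (fun _ _ => Real.exp_pos _) hI

theorem pw_nonneg (η : Env) (I : Finset ℤ) (t : ℤ) (l : ℕ) (x : ℤ) : 0 ≤ pw μ s η I t l x :=
  div_nonneg (Real.exp_pos _).le (Finset.sum_nonneg fun _ _ => (Real.exp_pos _).le)

theorem pw_sum (η : Env) {I : Finset ℤ} (hI : I.Nonempty) (t : ℤ) (l : ℕ) : ∑ x ∈ I, pw μ s η I t l x = 1 := by
  unfold pw
  rw [← Finset.sum_div]
  exact div_self (sm_pos η hI t l).ne'

theorem pw_le_one (η : Env) {I : Finset ℤ} (t : ℤ) (l : ℕ) {x : ℤ} (hx : x ∈ I) : pw μ s η I t l x ≤ 1 := by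
  rw [← pw_sum (μ := μ) η ⟨x, hx⟩ t l]
  exact Finset.single_le_sum (f := fun x => pw μ s η I t l x) (fun x _ => pw_nonneg η I t l x) hx

theorem V_le_sm (η : Env) {I : Finset ℤ} (t : ℤ) (l : ℕ) {x : ℤ} (hx : x ∈ I) : V μ s η (t, x) l ≤ sm μ s η I t l := by
  unfold sm
  rw [← Real.log_exp (V μ s η (t, x) l)]
  exact Real.log_le_log (Real.exp_pos _)
    (Finset.single_le_sum (f := fun x => Real.exp (V μ s η (t, x) l)) (fun _ _ => (Real.exp_pos _).le) hx)

/-- Jensen: the entrance into the cell from a point before it. -/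
theorem cell_det (η : Env) (r l : ℕ) {I : Finset ℤ} (hI : I.Nonempty) (hIs : ∀ x ∈ I, 0 ≤ x ∧ x ≤ r) :
    sm μ s η I r l ≤ V μ s η 0 (r + l) + ∑ x ∈ I, pw μ s η I r l x * X μ s η 0 r x := by
  obtain ⟨S, hS⟩ : ∃ S : ℝ, S = ∑ x ∈ I, Real.exp (V μ s η ((r : ℤ), x) l) := ⟨_, rfl⟩
  obtain ⟨M, hM⟩ : ∃ M : ℝ, M = ∑ x ∈ I, pw μ s η I r l x * X μ s η 0 r x := ⟨_, rfl⟩
  have hS0 : 0 < S := hS ▸ sm_pos η hI r l
  have h1 : Real.exp (-M) * S ≤ Real.exp (V μ s η 0 (r + l)) := by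
    have h2 : ∑ x ∈ I, W μ s η 0 r x * Real.exp (V μ s η ((r : ℤ), x) l) ≤ Real.exp (V μ s η 0 (r + l)) := by
      rw [exp_V_add]
      have h3 : ∀ k : ℤ, ((0 : Pt).1 + (r : ℤ), (0 : Pt).2 + k) = ((r : ℤ), k) := fun k => by simp
      simp only [h3]
      exact Finset.sum_le_sum_of_subset_of_nonneg (fun x hx => Finset.mem_Icc.2 (hIs x hx)) fun x _ _ =>
        mul_nonneg (W_nonneg _ _ _ _) (Real.exp_pos _).le
    refine le_trans ?_ h2
    have h4 : ∀ x ∈ I, Real.exp (-M) * (Real.exp (V μ s η ((r : ℤ), x) l) * (1 - X μ s η 0 r x + M)) ≤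
        W μ s η 0 r x * Real.exp (V μ s η ((r : ℤ), x) l) := by
      intro x hx
      have h5 : W μ s η 0 r x = Real.exp (-M) * Real.exp (-X μ s η 0 r x + M) := by
        rw [← Real.exp_add]
        have h6 : -M + (-X μ s η 0 r x + M) = Real.log (W μ s η 0 r x) := by
          unfold X
          ring
        rw [h6, Real.exp_log (W_pos η 0 (hIs x hx).1 (hIs x hx).2)]
      rw [h5]
      have h7 := Real.add_one_le_exp (-X μ s η 0 r x + M)
      have h8 := mul_le_mul_of_nonneg_left h7 (mul_pos (Real.exp_pos (-M)) (Real.exp_pos (V μ s η ((r : ℤ), x) l))).le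
      nlinarith
    refine le_trans (le_of_eq ?_) (Finset.sum_le_sum h4)
    rw [← Finset.mul_sum]
    congr 1
    have h5 : ∀ x, Real.exp (V μ s η ((r : ℤ), x) l) * (1 - X μ s η 0 r x + M) =
        (1 + M) * Real.exp (V μ s η ((r : ℤ), x) l) - Real.exp (V μ s η ((r : ℤ), x) l) * X μ s η 0 r x := fun x => by ring
    simp only [h5]
    rw [Finset.sum_sub_distrib, ← Finset.mul_sum, ← hS]
    have h6 : M * S = ∑ x ∈ I, Real.exp (V μ s η ((r : ℤ), x) l) * X μ s η 0 r x := by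
      rw [hM, Finset.sum_mul]
      refine Finset.sum_congr rfl fun x _ => ?_
      unfold pw
      rw [← hS]
      field_simp
    rw [← h6]
    ring
  have h2 := Real.log_le_log (mul_pos (Real.exp_pos _) hS0) h1
  rw [Real.log_mul (Real.exp_pos _).ne' hS0.ne', Real.log_exp, Real.log_exp, hS] at h2
  rw [← hM]
  unfold sm
  linarith

theorem measurable_sm (I : Finset ℤ) (t : ℤ) (l : ℕ) : Measurable fun η : Env => sm μ s η I t l := by
  unfold sm
  exact Real.measurable_log.comp (Finset.measurable_sum _ fun x _ => Real.measurable_exp.comp (measurable_V (t, x) l))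

theorem measurable_pw (I : Finset ℤ) (t : ℤ) (l : ℕ) (x : ℤ) : Measurable fun η : Env => pw μ s η I t l x := by
  unfold pw
  exact (Real.measurable_exp.comp (measurable_V (t, x) l)).div
    (Finset.measurable_sum _ fun x _ => Real.measurable_exp.comp (measurable_V (t, x) l))

theorem pw_dep (I : Finset ℤ) (t : ℤ) (l : ℕ) (x : ℤ) : DependsOn (fun η : Env => pw μ s η I t l x) (rows t (t + l)) := by
  intro η η' hh
  have h1 : ∀ y : ℤ, V μ s η (t, y) l = V μ s η' (t, y) l := fun y =>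
    V_dep (μ := μ) (s := s) (t, y) l fun p hp => hh p ⟨hp.1, hp.2.1⟩
  show pw μ s η I t l x = pw μ s η' I t l x
  unfold pw
  simp only [h1]

theorem Sub_sm {I : Finset ℤ} (hI : I.Nonempty) (t : ℤ) (l : ℕ) : Sub fun η : Env => sm μ s η I t l := by
  obtain ⟨x0, hx0⟩ := hI
  have h1 : Sub fun η : Env => ∑ x ∈ I, |V μ s η (t, x) l| := Sub.sum I fun x _ => (Sub_V (μ := μ) (s := s) (t, x) l).abs
  refine Sub.of_le (measurable_sm I t l) (Sub_V (μ := μ) (s := s) (t, x0) l) (h1.add (Sub.const (I.card : ℝ)))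
    (fun η => V_le_sm η t l hx0) fun η => ?_
  unfold sm
  rw [Real.log_le_iff_le_exp (sm_pos η ⟨x0, hx0⟩ t l)]
  have h2 : ∀ x ∈ I, Real.exp (V μ s η (t, x) l) ≤ Real.exp (∑ x ∈ I, |V μ s η (t, x) l|) := fun x hx =>
    Real.exp_le_exp.2 ((le_abs_self _).trans
      (Finset.single_le_sum (f := fun x => |V μ s η (t, x) l|) (fun _ _ => abs_nonneg _) hx))
  refine (Finset.sum_le_sum h2).trans ?_
  rw [Finset.sum_const, nsmul_eq_mul, add_comm, Real.exp_add]
  refine mul_le_mul_of_nonneg_right ?_ (Real.exp_pos _).le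
  have := Real.add_one_le_exp (I.card : ℝ)
  linarith

variable [IsProbabilityMeasure μ]

/-- The mean of the soft maximum over a cell which is cheap from a point before it. -/
theorem sm_mean (hEM : Pool.Agent.W_7d29a1_h47.EM μ) (r l : ℕ) {I : Finset ℤ} (hI : I.Nonempty)
    (hIs : ∀ x ∈ I, 0 ≤ x ∧ x ≤ r) {B : ℝ} (hB : ∀ x ∈ I, ep μ s r x ≤ B) :
    ∫ η, sm μ s η I r l ∂(law μ) ≤ ∫ η, V μ s η 0 (r + l) ∂(law μ) + B := by
  have hp : ∀ x ∈ I, Sub fun η => pw μ s η I r l x := fun x hx =>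
    Pool.Agent.W_7d29a1_h60.Sub_bdd (measurable_pw I r l x) fun η => by
      rw [abs_of_nonneg (pw_nonneg η I r l x)]
      exact pw_le_one η r l hx
  have hX : ∀ x ∈ I, Sub fun η => X μ s η 0 r x := fun x hx => Sub_X 0 (hIs x hx).1 (hIs x hx).2
  have hint : ∀ x ∈ I, Integrable (fun η => pw μ s η I r l x * X μ s η 0 r x) (law μ) := fun x hx =>
    Sub.mul_integrable hEM (hp x hx) (hX x hx)
  have hV : Integrable (fun η => V μ s η 0 (r + l)) (law μ) := (Sub_V (μ := μ) (s := s) 0 (r + l)).integrable hEM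
  have h1 := integral_mono ((Sub_sm (μ := μ) hI r l).integrable hEM) (hV.add (integrable_finsetSum _ hint)) fun η =>
    cell_det (μ := μ) η r l hI hIs
  have h2 : ∫ η, ((fun η => V μ s η 0 (r + l)) + fun η => ∑ x ∈ I, pw μ s η I r l x * X μ s η 0 r x) η ∂(law μ) =
      ∫ η, V μ s η 0 (r + l) ∂(law μ) + ∑ x ∈ I, ∫ η, pw μ s η I r l x * X μ s η 0 r x ∂(law μ) := by
    rw [← integral_finsetSum _ hint]
    exact integral_add hV (integrable_finsetSum _ hint)
  rw [h2] at h1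
  refine h1.trans (add_le_add le_rfl ?_)
  have h3 : ∀ x ∈ I, ∫ η, pw μ s η I r l x * X μ s η 0 r x ∂(law μ) ≤ (∫ η, pw μ s η I r l x ∂(law μ)) * B := by
    intro x hx
    have hXd : DependsOn (fun η : Env => X μ s η 0 r x) (rows 0 r) := fun η η' hh =>
      X_dep (μ := μ) (s := s) 0 r x fun p hp => hh p (by
        have k1 := hp.1
        have k2 := hp.2.1
        exact ⟨by simpa using k1, by simpa using k2⟩)
    have h4 := integral_indep (μ := μ) (hX x hx).1 (measurable_pw (μ := μ) (s := s) I r l x) hXd (pw_dep (μ := μ) (s := s) I r l x) (rows_disj le_rfl)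
    have h5 : ∫ η, pw μ s η I r l x * X μ s η 0 r x ∂(law μ) = ∫ η, X μ s η 0 r x * pw μ s η I r l x ∂(law μ) := by
      refine integral_congr_ae (Filter.Eventually.of_forall fun η => ?_)
      show pw μ s η I r l x * X μ s η 0 r x = X μ s η 0 r x * pw μ s η I r l x
      ring
    rw [h5, h4, mul_comm]
    refine mul_le_mul_of_nonneg_left ?_ (integral_nonneg fun η => pw_nonneg η I r l x)
    refine le_trans ?_ (hB x hx)
    exact integral_mono ((hX x hx).integrable hEM) (((hX x hx).max (Sub.const 0)).integrable hEM) fun η => le_max_left _ _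
  refine (Finset.sum_le_sum h3).trans (le_of_eq ?_)
  rw [← Finset.sum_mul, ← integral_finsetSum _ fun x hx => (hp x hx).integrable hEM]
  have h6 : ∀ η : Env, ∑ x ∈ I, pw μ s η I r l x = 1 := fun η => pw_sum η hI r l
  simp only [h6]
  simp

/-- Paley - Zygmund for a function of negative mean. -/
theorem pz {f g : Env → ℝ} (hf : Integrable f (law μ)) (hfm : Measurable f) (hg : ∀ η, max (-f η) 0 ≤ g η) {A E κ : ℝ}
    (hg2 : Integrable (fun η => g η ^ 2) (law μ)) (hA : 0 < A) (hE : 0 < E) (hκ : 0 < κ)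
    (h2 : ∫ η, g η ^ 2 ∂(law μ) ≤ A * E ^ 2) (h1 : ∫ η, f η ∂(law μ) ≤ -(κ * E)) :
    κ ^ 2 / (4 * A) ≤ (law μ).real {η | f η ≤ -(κ / 2 * E)} := by
  obtain ⟨G, hG⟩ : ∃ G : Set Env, G = {η | f η ≤ -(κ / 2 * E)} := ⟨_, rfl⟩
  have mG : MeasurableSet G := by rw [hG]; exact measurableSet_le hfm measurable_const
  -- `- f ≤ κ E / 2 + κ / (4 A E) g² + (A E / κ) 1_G`
  have key : ∀ η, -f η ≤ κ / 2 * E + (κ / (4 * A * E) * g η ^ 2 + G.indicator (fun _ => A * E / κ) η) := by
    intro η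
    have hg0 : 0 ≤ g η := (le_max_right _ _).trans (hg η)
    have hc : 0 < κ / (4 * A * E) := by positivity
    by_cases hη : η ∈ G
    · rw [Set.indicator_of_mem hη]
      have h3 : g η ≤ κ / (4 * A * E) * g η ^ 2 + A * E / κ := by
        have h4 : κ / (4 * A * E) * g η ^ 2 + A * E / κ - g η = κ / (4 * A * E) * (g η - 2 * A * E / κ) ^ 2 := by
          field_simp
          ring
        have h5 : 0 ≤ κ / (4 * A * E) * (g η - 2 * A * E / κ) ^ 2 := by positivity
        linarith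
      have h4 := (le_max_left (-f η) 0).trans (hg η)
      have h5 : 0 < κ / 2 * E := by positivity
      linarith
    · rw [Set.indicator_of_notMem hη, add_zero]
      rw [hG, Set.mem_ofPred_eq, not_le] at hη
      have h5 : 0 ≤ κ / (4 * A * E) * g η ^ 2 := by positivity
      linarith
  have hi1 : Integrable (G.indicator fun _ => A * E / κ) (law μ) := (integrable_const _).indicator mG
  have h3 := integral_mono hf.neg ((integrable_const (κ / 2 * E)).add ((hg2.const_mul (κ / (4 * A * E))).add hi1)) key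
  have h4 : ∫ η, ((fun _ : Env => κ / 2 * E) + ((fun η : Env => κ / (4 * A * E) * g η ^ 2) +
      G.indicator fun _ : Env => A * E / κ) : Env → ℝ) η ∂(law μ) = κ / 2 * E + (κ / (4 * A * E) * ∫ η, g η ^ 2 ∂(law μ) + (law μ).real G * (A * E / κ)) := by
    show ∫ η, (κ / 2 * E + (κ / (4 * A * E) * g η ^ 2 + G.indicator (fun _ => A * E / κ) η)) ∂(law μ) = _
    have hi2 : Integrable (fun η => κ / (4 * A * E) * g η ^ 2) (law μ) := hg2.const_mul _
    have hi3 : Integrable (fun η => κ / (4 * A * E) * g η ^ 2 + G.indicator (fun _ => A * E / κ) η) (law μ) := hi2.add hi1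
    have k1 : ∫ η, (κ / 2 * E + (κ / (4 * A * E) * g η ^ 2 + G.indicator (fun _ => A * E / κ) η)) ∂(law μ) =
        ∫ _η : Env, κ / 2 * E ∂(law μ) + ∫ η, (κ / (4 * A * E) * g η ^ 2 + G.indicator (fun _ => A * E / κ) η) ∂(law μ) :=
      integral_add (integrable_const _) hi3
    have k2 : ∫ η, (κ / (4 * A * E) * g η ^ 2 + G.indicator (fun _ => A * E / κ) η) ∂(law μ) =
        ∫ η, κ / (4 * A * E) * g η ^ 2 ∂(law μ) + ∫ η, G.indicator (fun _ => A * E / κ) η ∂(law μ) :=
      integral_add hi2 hi1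
    have k3 : ∫ η, κ / (4 * A * E) * g η ^ 2 ∂(law μ) = κ / (4 * A * E) * ∫ η, g η ^ 2 ∂(law μ) :=
      integral_const_mul _ _
    rw [k1, k2, k3, integral_indicator mG]
    simp [Measure.real]
  rw [h4] at h3
  have h5 : ∫ η, (-f) η ∂(law μ) = -∫ η, f η ∂(law μ) := by
    show ∫ η, -f η ∂(law μ) = _
    rw [integral_neg]
  rw [h5] at h3
  have h6 : κ / (4 * A * E) * ∫ η, g η ^ 2 ∂(law μ) ≤ κ / 4 * E := by
    have h7 := mul_le_mul_of_nonneg_left h2 (show 0 ≤ κ / (4 * A * E) by positivity)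
    have h8 : κ / (4 * A * E) * (A * E ^ 2) = κ / 4 * E := by
      field_simp
    linarith
  rw [← hG]
  have h7 : κ / 4 * E ≤ (law μ).real G * (A * E / κ) := by linarith
  have h8 : κ / 4 * E = κ ^ 2 / (4 * A) * (A * E / κ) := by
    field_simp
  rw [h8] at h7
  exact le_of_mul_le_mul_right h7 (by positivity)

end

end Pool.Agent.W_7d29a1_HR
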