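import Pool.Agent.W_7d29a1_HL.SepDet
import Pool.Agent.W_7d29a1_HS.Lucky
import Pool.Agent.W_7d29a1_HS.Scale
import Pool.Agent.W_7d29a1_h60.LuckBound

/-!
MP_7d29a1_pr, TRACK H, part 4, at the tilt `s`. The non random fluctuation of `log Z_n`: `sep_det` from an arbitrary start on the
left, and the means of the tilted lucks. (Model: `W_7d29a1_NR.SepG`, helper87.)
-/

namespace Pool.Agent.W_7d29a1_HR

open MeasureTheory ProbabilityTheory Filter Topology
open Pool.Agent.W_7d29a1_F Pool.Agent.W_7d29a1_h4g Pool.Agent.W_7d29a1_H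
open Pool.Agent.W_7d29a1_L (Mh T kap Bx mem_Bx Mh_nonneg le_Mh Sub_Mh Sub_T exp_T T_sh)
open Pool.Agent.W_7d29a1_HL Pool.Agent.W_7d29a1_HS

noncomputable section

variable {μ : Measure ℝ} {s : ℝ}

/-- `log (1 + z)`. -/
def lo (z : ℝ) : ℝ := Real.log (1 + z)

theorem lo_nonneg {z : ℝ} (hz : 0 ≤ z) : 0 ≤ lo z := Real.log_nonneg (by linarith)

theorem exp_lo {z : ℝ} (hz : 0 ≤ z) : Real.exp (lo z) = 1 + z := by
  unfold lo
  exact Real.exp_log (by linarith)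

theorem lo_mono {x z : ℝ} (hx : 0 ≤ x) (h : x ≤ z) : lo x ≤ lo z :=
  Real.log_le_log (by linarith) (by linarith)

theorem lo_exp (t : ℝ) : lo (Real.exp t) ≤ max t 0 + 1 := by
  unfold lo
  have h1 : 1 + Real.exp t ≤ 2 * Real.exp (max t 0) := by
    have h2 : Real.exp t ≤ Real.exp (max t 0) := Real.exp_le_exp.2 (le_max_left _ _)
    have h3 : 1 ≤ Real.exp (max t 0) := Real.one_le_exp (le_max_right _ _)
    linarith
  refine (Real.log_le_log (by positivity) h1).trans ?_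
  rw [Real.log_mul (by norm_num) (Real.exp_pos _).ne', Real.log_exp]
  have := Real.log_two_lt_d9
  linarith

variable [IsProbabilityMeasure μ] {c C : ℝ} {n₀ : ℕ}

/-- The mean of the tilted luck of a site at the scale `n`. -/
theorem luckT (h : In μ s c C n₀) {n : ℕ} (hn : n₀ ≤ n) {t : ℝ} (ht : |t| * wd μ s n ≤ c * EE μ s n) {l : ℕ} (hl : l ≤ 4 * n)
    (hw : 0 < wd μ s n) (a : Pt) :
    ∫ η, max (T μ s (sl μ s) t η a l) 0 ∂(law μ) ≤ C * EE μ s n * C := by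
  have hC0 : 0 < C := lt_of_lt_of_le one_pos h.C1
  have hE : 0 < EE μ s n := EE_pos n
  have hA : 0 < C * EE μ s n := mul_pos hC0 hE
  have h1 := h.luck n hn t (-(wd μ s n / 2)) ht
  have hq : (((0 : ℕ), (0 : ℤ)), l) ∈ Bx (sl μ s) (wd μ s n) (-(wd μ s n / 2)) (4 * n) := by
    rw [mem_Bx h.sl_pos.le h.sl_lt.le]
    refine ⟨?_, ?_, ?_⟩
    · show 0 + l ≤ 4 * n
      omega
    · simp
      linarith
    · simp
      linarith
  have h2 : ∀ η : Env, max (T μ s (sl μ s) t η 0 l) 0 ≤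
      C * EE μ s n * Real.exp (Mh μ s (sl μ s) t (wd μ s n) (-(wd μ s n / 2)) (4 * n) η / (C * EE μ s n)) := by
    intro η
    have h3 := le_Mh (μ := μ) (s := s) (h := t) η hq
    have h4 : ((((0 : ℕ) : ℤ), (0 : ℤ)) : Pt) = 0 := rfl
    simp only [h4] at h3
    have h5 : max (T μ s (sl μ s) t η 0 l) 0 ≤ Mh μ s (sl μ s) t (wd μ s n) (-(wd μ s n / 2)) (4 * n) η :=
      max_le h3 (Mh_nonneg η)
    refine h5.trans ?_
    have h6 := Real.add_one_le_exp (Mh μ s (sl μ s) t (wd μ s n) (-(wd μ s n / 2)) (4 * n) η / (C * EE μ s n))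
    have h7 := mul_le_mul_of_nonneg_left h6 hA.le
    have h8 : C * EE μ s n * (Mh μ s (sl μ s) t (wd μ s n) (-(wd μ s n / 2)) (4 * n) η / (C * EE μ s n)) =
      Mh μ s (sl μ s) t (wd μ s n) (-(wd μ s n / 2)) (4 * n) η := by field_simp
    nlinarith
  have hsub : Sub fun η => max (T μ s (sl μ s) t η 0 l) 0 := (Sub_T (μ := μ) 0 l).max (Sub.const 0)
  have hsub2 : Sub fun η => Mh μ s (sl μ s) t (wd μ s n) (-(wd μ s n / 2)) (4 * n) η / (C * EE μ s n) := by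
    have h3 := (Sub_Mh (μ := μ) (s := s) (v := sl μ s) (h := t) (w := wd μ s n) (z := -(wd μ s n / 2)) (n := 4 * n)).const_mul
      (C * EE μ s n)⁻¹
    have h4 : (fun η => Mh μ s (sl μ s) t (wd μ s n) (-(wd μ s n / 2)) (4 * n) η / (C * EE μ s n)) =
        fun η => (C * EE μ s n)⁻¹ * Mh μ s (sl μ s) t (wd μ s n) (-(wd μ s n / 2)) (4 * n) η := by
      funext η
      rw [div_eq_inv_mul]
    rw [h4]
    exact h3
  have h3 : ∫ η, max (T μ s (sl μ s) t η a l) 0 ∂(law μ) = ∫ η, max (T μ s (sl μ s) t η 0 l) 0 ∂(law μ) := by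
    have h4 := Pool.Agent.W_7d29a1_f21.mp_integral (mp_sh (μ := μ) a)
      (F := fun η : Env => max (T μ s (sl μ s) t η 0 l) 0) hsub.1.aestronglyMeasurable
    rw [← h4]
    refine integral_congr_ae (Filter.Eventually.of_forall fun η => ?_)
    show max (T μ s (sl μ s) t η a l) 0 = max (T μ s (sl μ s) t (sh a η) 0 l) 0
    rw [T_sh, zero_add]
  rw [h3]
  refine (integral_mono (hsub.integrable h.em) ((hsub2.exp_int h.em).const_mul _) h2).trans ?_
  rw [integral_const_mul]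
  exact mul_le_mul_of_nonneg_left h1 hA.le

omit [IsProbabilityMeasure μ] in
/-- A point to point weight from the tilted luck. -/
theorem W_le_T {t : ℝ} (η : Env) (a : Pt) (n : ℕ) (y : ℤ) :
    Real.exp (t * ((y : ℝ) - sl μ s * n)) * W μ s η a n y ≤ Real.exp (T μ s (sl μ s) t η a n) := by
  by_cases h : 0 ≤ y ∧ y ≤ n
  · rw [exp_T]
    have h1 := Finset.single_le_sum (f := fun y : ℤ => W μ s η a n y * Real.exp (t * ((y : ℝ) - sl μ s * n)))
      (s := Finset.Icc (0 : ℤ) n) (fun i _ => mul_nonneg (W_nonneg _ _ _ _) (Real.exp_nonneg _)) (Finset.mem_Icc.2 h)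
    linarith
  · rw [W_eq_zero η a h, mul_zero]
    exact (Real.exp_pos _).le

/-- `sep_det` from the start `(0, x)`. -/
theorem sep_gen {l : ℤ → ℤ} (hl : ∀ t, l t ≤ l (t + 1)) (T : Set Pt) (η : Env) {x L y1 y2 : ℤ} (hL : x ≤ L) (r k0 k2 n : ℕ)
    (hn : r + k0 ≤ n) (hk : k0 ≤ k2) (h1 : y1 ≤ l r)
    (hT : ∀ p ∈ T, (r : ℤ) < p.1 ∧ p.1 ≤ r + k0 ∧ l p.1 < p.2)
    (hp1 : 0 < WR μ s (Lw l) η ((r : ℤ), y1) k2 (y2 - y1)) (hp2 : 0 < W μ s η ((0 : ℤ), L) r (y1 - L)) :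
    Real.exp (V μ s η ((0 : ℤ), x) n) ≤ (∑ y ∈ Finset.Icc (0 : ℤ) n, WR μ s Tᶜ η ((0 : ℤ), x) n y) +
      Real.exp (V μ s η ((0 : ℤ), L) n) * ((W μ s η ((0 : ℤ), x) r (y1 - x) +
        k0 * (WR μ s (Rg l r) η ((0 : ℤ), x) (r + k2) (y2 - x) / WR μ s (Lw l) η ((r : ℤ), y1) k2 (y2 - y1))) /
          W μ s η ((0 : ℤ), L) r (y1 - L)) := by
  obtain ⟨a, ha⟩ : ∃ a : Pt, a = ((0 : ℤ), x) := ⟨_, rfl⟩
  have e1 : ∀ (t u : ℤ) (m : ℕ), V μ s (sh a η) (t, u - x) m = V μ s η (t, u) m := by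
    intro t u m
    rw [V_sh, ha]
    congr 1
    ext
    · show t + 0 = t
      ring
    · show u - x + x = u
      ring
  have e2 : ∀ (t u : ℤ) (m : ℕ) (y : ℤ), W μ s (sh a η) (t, u - x) m y = W μ s η (t, u) m y := by
    intro t u m y
    rw [W_sh, ha]
    congr 1
    ext
    · show t + 0 = t
      ring
    · show u - x + x = u
      ring
  have e3 : ∀ (R : Set Pt) (t u : ℤ) (m : ℕ) (y : ℤ),
      WR μ s {p | p + a ∈ R} (sh a η) (t, u - x) m y = WR μ s R η (t, u) m y := by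
    intro R t u m y
    rw [WR_sh, ha]
    congr 1
    ext
    · show t + 0 = t
      ring
    · show u - x + x = u
      ring
  obtain ⟨l', hl'⟩ : ∃ l' : ℤ → ℤ, l' = fun t => l t - x := ⟨_, rfl⟩
  have e4 : Lw l' = {p | p + a ∈ Lw l} := by
    ext p
    show p.2 ≤ l' p.1 ↔ p.2 + a.2 ≤ l (p.1 + a.1)
    rw [hl', ha]
    simp only [add_zero]
    omega
  have e5 : Rg l' r = {p | p + a ∈ Rg l r} := by
    ext p
    show (p.1 ≤ (r : ℤ) ∨ p.2 ≤ l' p.1) ↔ (p.1 + a.1 ≤ (r : ℤ) ∨ p.2 + a.2 ≤ l (p.1 + a.1))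
    rw [hl', ha]
    simp only [add_zero]
    omega
  obtain ⟨T', hT'⟩ : ∃ T' : Set Pt, T' = {p | p + a ∈ T} := ⟨_, rfl⟩
  have e6 : T'ᶜ = {p | p + a ∈ Tᶜ} := by
    rw [hT']
    rfl
  have f1 : WR μ s (Lw l') (sh a η) ((r : ℤ), y1 - x) k2 (y2 - x - (y1 - x)) =
      WR μ s (Lw l) η ((r : ℤ), y1) k2 (y2 - y1) := by
    rw [e4, e3]
    congr 1
    ring
  have f2 : W μ s (sh a η) ((0 : ℤ), L - x) r (y1 - x - (L - x)) = W μ s η ((0 : ℤ), L) r (y1 - L) := by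
    rw [e2]
    congr 1
    ring
  have hx0 : ((0 : ℤ), (0 : ℤ)) = ((0 : ℤ), x - x) := by rw [sub_self]
  have key := sep_det (μ := μ) (l := l') (fun t => by rw [hl']; have := hl t; simp only; omega) T' (sh a η)
    (L := L - x) (y1 := y1 - x) (y2 := y2 - x) (by omega) r k0 k2 n hn hk (by rw [hl']; simp only; omega)
    (fun p hp => by
      rw [hT'] at hp
      have h2 := hT (p + a) hp
      rw [ha] at h2
      have h3 : (p + ((0 : ℤ), x)).1 = p.1 := by show p.1 + 0 = p.1; ring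
      have h4 : (p + ((0 : ℤ), x)).2 = p.2 + x := rfl
      rw [h3, h4] at h2
      rw [hl']
      simp only
      omega)
    (by rw [f1]; exact hp1) (by rw [f2]; exact hp2)
  rw [f1, f2, e1, e6, e5, hx0] at key
  simp only [e1, e2, e3] at key
  exact key

end

end Pool.Agent.W_7d29a1_HR
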