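import Pool.Agent.W_7d29a1_HR.Af
import Pool.Agent.W_7d29a1_HR.Mass
import Pool.Agent.W_7d29a1_HL.SepLeft
import Pool.Agent.W_7d29a1_HL.LuckSide

/-!
MP_7d29a1_pr, TRACK H, part 4, at the tilt `s`. The tools of the step: shifts of dependences, Markov, the good event,
the weighted sum of the separation function. (Model: `W_7d29a1_NR.Step`, helper87.)
-/

namespace Pool.Agent.W_7d29a1_HR

open MeasureTheory ProbabilityTheory Filter Topology
open Pool.Agent.W_7d29a1_F Pool.Agent.W_7d29a1_h4g Pool.Agent.W_7d29a1_H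
open Pool.Agent.W_7d29a1_HL Pool.Agent.W_7d29a1_HS

noncomputable section

variable {μ : Measure ℝ} {s : ℝ}

theorem dep_shift {β : Type*} {f : Env → β} {S : Set Pt} (hf : DependsOn f S) (a : Pt) :
    DependsOn (fun η : Env => f (sh a η)) {p | p - a ∈ S} := by
  intro η η' hh
  refine hf fun p hp => ?_
  show η (p + a) = η' (p + a)
  refine hh (p + a) ?_
  show p + a - a ∈ S
  rwa [add_sub_cancel_right]

theorem dep_sub {β : Type*} {f : Env → β} {S S' : Set Pt} (hf : DependsOn f S) (h : S ⊆ S') : DependsOn f S' :=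
  fun _ _ hh => hf fun p hp => hh p (h hp)

variable [IsProbabilityMeasure μ] {c C : ℝ} {n₀ : ℕ}

theorem mkv {f : Env → ℝ} (hf : Integrable f (law μ)) (h0 : ∀ η, 0 ≤ f η) {B u : ℝ} (hB : ∫ η, f η ∂(law μ) ≤ B)
    (hu : 0 < u) : (law μ).real {η | u < f η} ≤ B / u := by
  have h1 := mul_meas_ge_le_integral_of_nonneg (μ := law μ) (f := f) (ae_of_all _ h0) hf u
  have h2 : u * (law μ).real {η | u ≤ f η} ≤ B := by
    refine le_trans ?_ hB
    simpa [Measure.real] using h1
  have h3 : (law μ).real {η | u < f η} ≤ (law μ).real {η | u ≤ f η} :=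
    measureReal_mono (fun η hη => by
      rw [Set.mem_ofPred_eq] at hη ⊢
      exact hη.le) (measure_ne_top _ _)
  rw [le_div_iff₀ hu]
  have h4 := mul_le_mul_of_nonneg_left h3 hu.le
  linarith

/-- The good event. -/
theorem prob_good {G BL E : Set Env} {T : Set Pt} (a : Pt) (hG : MeasurableSet G) (hBL : MeasurableSet BL)
    (hE : MeasurableSet E) (hGd : ∀ η η' : Env, (∀ p ∈ T, η p = η' p) → (η ∈ G ↔ η' ∈ G))
    (hEd : ∀ η η' : Env, (∀ p ∈ {p : Pt | p - a ∈ T}ᶜ, η p = η' p) → (η ∈ E ↔ η' ∈ E)) {β e : ℝ}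
    (h1 : (law μ).real (G ∩ BL) ≤ β * (law μ).real G) (h2 : e ≤ (law μ).real E) :
    (e - β) * (law μ).real G ≤ (law μ).real ({η | sh a η ∈ G} ∩ (E ∩ {η | sh a η ∉ BL})) := by
  have hs : Measurable fun η : Env => sh a η := measurable_pi_lambda _ fun p => measurable_pi_apply (p + a)
  obtain ⟨G', hG'⟩ : ∃ G' : Set Env, G' = {η | sh a η ∈ G} := ⟨_, rfl⟩
  have mG' : MeasurableSet G' := by rw [hG']; exact hs hG
  have hGd' : ∀ η η' : Env, (∀ p ∈ {p : Pt | p - a ∈ T}, η p = η' p) → (η ∈ G' ↔ η' ∈ G') := by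
    intro η η' hh
    rw [hG', Set.mem_ofPred_eq, Set.mem_ofPred_eq]
    refine hGd _ _ fun p hp => ?_
    show η (p + a) = η' (p + a)
    refine hh (p + a) ?_
    show p + a - a ∈ T
    rwa [add_sub_cancel_right]
  have i1 := real_inter_indep (μ := μ) mG' hE hGd' hEd disjoint_compl_right
  have r1 : (law μ).real G' = (law μ).real G := by rw [hG']; exact real_sh a hG
  have r2 : (law μ).real {η | sh a η ∈ G ∩ BL} = (law μ).real (G ∩ BL) := real_sh a (hG.inter hBL)
  have hsub : G' ∩ E ⊆ (G' ∩ (E ∩ {η | sh a η ∉ BL})) ∪ {η | sh a η ∈ G ∩ BL} := by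
    rintro η ⟨q1, q2⟩
    by_cases q3 : sh a η ∈ BL
    · exact Or.inr ⟨by rw [hG'] at q1; exact q1, q3⟩
    · exact Or.inl ⟨q1, q2, q3⟩
  have h3 := (measureReal_mono hsub (measure_ne_top (law μ) _)).trans (measureReal_union_le _ _)
  rw [i1, r1, r2] at h3
  have hG0 : 0 ≤ (law μ).real G := measureReal_nonneg
  have h4 := mul_le_mul_of_nonneg_left h2 hG0
  rw [← hG']
  linarith

/-- The separation function from the row `m` on, its law, and its sum against the end point law. -/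
theorem step_fn (h : In μ s c C n₀) {m r : ℕ} {L D : ℤ} {th z M1 : ℝ} {y1 y2 : ℤ} {S : Set Pt}
    (hrm : 3 * r ≤ m) (hr : n₀ ≤ r) (hw : 0 < wd μ s r) (hth0 : 0 ≤ th)
    (htw : |th| * wd μ s r ≤ c * EE μ s r) (hS : ∀ p ∈ S, (r : ℤ) < p.1 ∧ ln μ s L D p.1 < p.2)
    (hz1 : z ≤ (y1 : ℝ) - sl μ s * r) (hz2 : z ≤ (y2 : ℝ) - sl μ s * (3 * r : ℕ))
    (hM1 : 100 * (EE μ s m + 2 * (C * EE μ s r * C) + 3) ≤ M1 * EE μ s m) {a : Pt} (ha : a = ((m : ℤ), md μ s m)) :
    ∃ A : ℤ → Env → ℝ, (∀ k η, k ≤ md μ s m → A k η = af μ s S (ln μ s L D) th z r m y1 y2 (k - md μ s m) (sh a η)) ∧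
      (∀ k η, 0 ≤ A k η) ∧ (∀ k, Sub (A k)) ∧ (∀ k, DependsOn (A k) {p : Pt | p - a ∈ Sᶜ ∩ rows 0 m}) ∧
      Measurable (fun η => ∑ k ∈ Finset.Icc (0 : ℤ) m, gb μ s η m k * A k η) ∧
      (law μ).real {η | M1 * EE μ s m < ∑ k ∈ Finset.Icc (0 : ℤ) m, gb μ s η m k * A k η} ≤ 1 / 100 := by
  classical
  have hEM := h.em
  have hEm := EE_pos (μ := μ) (s := s) m
  have hEr := EE_pos (μ := μ) (s := s) r
  obtain ⟨A, hA⟩ : ∃ A : ℤ → Env → ℝ, A = fun k η => if k ≤ md μ s m then
    af μ s S (ln μ s L D) th z r m y1 y2 (k - md μ s m) (sh a η) else 0 := ⟨_, rfl⟩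
  have hA0 : ∀ k η, 0 ≤ A k η := by
    intro k η
    rw [hA]
    simp only
    split_ifs
    · exact af_nonneg _ _ _ _ _ _ _ _ _ _
    · exact le_rfl
  have hafd : ∀ x, DependsOn (af μ s S (ln μ s L D) th z r m y1 y2 x) (Sᶜ ∩ rows 0 m) := fun x =>
    af_dep (μ := μ) (by omega) (fun p hp => ⟨(hS p hp).1, (hS p hp).2⟩) x
  have hAsub : ∀ k, Sub (A k) := by
    intro k
    by_cases hk : k ≤ md μ s m
    · have h1 := (af_mean (μ := μ) h S (ln μ s L D) (m := m) hr hw htw hth0 hz1 hz2 (k - md μ s m)).1.comp_sh a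
      have h2 : A k = fun η => af μ s S (ln μ s L D) th z r m y1 y2 (k - md μ s m) (sh a η) := by
        rw [hA]
        funext η
        simp only [if_pos hk]
      rw [h2]
      exact h1
    · have h2 : A k = fun _ => (0 : ℝ) := by
        rw [hA]
        funext η
        simp only [if_neg hk]
      rw [h2]
      exact Sub.const 0
  have hAdep : ∀ k, DependsOn (A k) {p : Pt | p - a ∈ Sᶜ ∩ rows 0 m} := by
    intro k
    by_cases hk : k ≤ md μ s m
    · have h2 : A k = fun η => af μ s S (ln μ s L D) th z r m y1 y2 (k - md μ s m) (sh a η) := by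
        rw [hA]
        funext η
        simp only [if_pos hk]
      rw [h2]
      exact dep_shift (hafd (k - md μ s m)) a
    · have h2 : A k = fun _ => (0 : ℝ) := by
        rw [hA]
        funext η
        simp only [if_neg hk]
      rw [h2]
      exact fun _ _ _ => rfl
  have hAmean : ∀ k, ∫ η, A k η ∂(law μ) ≤ EE μ s m + 2 * (C * EE μ s r * C) + 3 := by
    intro k
    have hC : 0 ≤ C := le_trans zero_le_one h.C1
    by_cases hk : k ≤ md μ s m
    · have h1 := af_mean (μ := μ) h S (ln μ s L D) (m := m) hr hw htw hth0 hz1 hz2 (k - md μ s m)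
      have h2 : A k = fun η => af μ s S (ln μ s L D) th z r m y1 y2 (k - md μ s m) (sh a η) := by
        rw [hA]
        funext η
        simp only [if_pos hk]
      rw [h2]
      have h3 := Pool.Agent.W_7d29a1_f21.mp_integral (mp_sh (μ := μ) a)
        (F := af μ s S (ln μ s L D) th z r m y1 y2 (k - md μ s m)) h1.1.1.aestronglyMeasurable
      rw [h3]
      exact h1.2
    · have h2 : A k = fun _ => (0 : ℝ) := by
        rw [hA]
        funext η
        simp only [if_neg hk]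
      rw [h2]
      simp only [integral_const, smul_zero]
      positivity
  obtain ⟨hYint, hYmean⟩ := gb_mean (μ := μ) hEM m (F := A) (fun k _ => hAsub k) (d := 2 * (m : ℤ)) (fun k _ =>
    dep_sub (hAdep k) fun p hp => by
      have h1 : p - a ∈ rows 0 m := hp.2
      have h2 : (p - a).1 = p.1 - m := by rw [ha]; rfl
      have h3 := h1.1
      have h4 := h1.2
      rw [h2] at h3 h4
      exact ⟨by omega, by omega⟩) (fun k _ => hAmean k)
  obtain ⟨Y, hY⟩ : ∃ Y : Env → ℝ, Y = fun η => ∑ k ∈ Finset.Icc (0 : ℤ) m, gb μ s η m k * A k η := ⟨_, rfl⟩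
  rw [← hY] at hYint
  have hYmean' : ∫ η, Y η ∂(law μ) ≤ EE μ s m + 2 * (C * EE μ s r * C) + 3 := by rw [hY]; exact hYmean
  have hY0 : ∀ η, 0 ≤ Y η := fun η => by
    rw [hY]
    exact Finset.sum_nonneg fun k _ => mul_nonneg (gb_nonneg η m k) (hA0 k η)
  have hC0 : 0 < C := lt_of_lt_of_le one_pos h.C1
  have hM1p : 0 < M1 * EE μ s m := by
    refine lt_of_lt_of_le ?_ hM1
    positivity
  have hYp := mkv (μ := μ) hYint hY0 hYmean' hM1p
  have hYp' : (law μ).real {η | M1 * EE μ s m < Y η} ≤ 1 / 100 := by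
    refine hYp.trans ?_
    rw [div_le_iff₀ hM1p]
    linarith
  have mY : Measurable Y := by
    rw [hY]
    exact Finset.measurable_sum _ fun k _ => (measurable_gb m k).mul (hAsub k).1
  subst hY
  exact ⟨A, fun k η hk => by rw [hA]; simp only [if_pos hk], hA0, hAsub, hAdep, mY, hYp'⟩

end

end Pool.Agent.W_7d29a1_HR
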