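import Pool.Agent.W_7d29a1_HL.LuckSide

/-!
MP_7d29a1_pr, TRACK H, part 4 (at the tilt `s`): the upper tail of the free energy from below, `P (V_n ≥ x EE n) ≥ exp (- A x ^ A)`
(model: `W_7d29a1_NR.TailU`). (helper32)
-/

set_option autoImplicit false

namespace Pool.Agent.W_7d29a1_HR

open MeasureTheory ProbabilityTheory Filter Topology
open Pool.Agent.W_7d29a1_F Pool.Agent.W_7d29a1_h4g Pool.Agent.W_7d29a1_H Pool.Agent.W_7d29a1_HS Pool.Agent.W_7d29a1_HL

noncomputable section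

variable {μ : Measure ℝ} [IsProbabilityMeasure μ] {s c C : ℝ} {n₀ : ℕ}

/-- The probability of an upper deviation at a translated point. -/
theorem V_ge_sh (a : Pt) (N : ℕ) (Y : ℝ) : (law μ).real {η | Y ≤ V μ s η a N} = (law μ).real {η | Y ≤ V μ s η 0 N} := by
  have h1 := real_sh (μ := μ) a (E := {η | Y ≤ V μ s η 0 N}) (measurableSet_le measurable_const (measurable_V 0 N))
  rw [← h1]
  congr 1
  ext η
  rw [Set.mem_ofPred_eq, Set.mem_ofPred_eq, Set.mem_ofPred_eq, V_sh, zero_add]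

/-- ONE LUCKY BLOCK in front. -/
theorem up_block (h : In μ s c C n₀) (K : ℝ) : ∃ p : ℝ, 0 < p ∧ ∃ n₁ : ℕ, ∀ m : ℕ, n₁ ≤ m → ∀ (N : ℕ) (Y : ℝ),
    p * (law μ).real {η | Y ≤ V μ s η 0 N} ≤ (law μ).real {η | Y + K * EE μ s m ≤ V μ s η 0 (m + N)} := by
  have hc0 := h.c0
  have hc1 := h.c1
  have hC1 := h.C1
  have hC0 : 0 < C := lt_of_lt_of_le one_pos hC1
  obtain ⟨R₁, hR₁, hstrip⟩ := strip h
  obtain ⟨nW, hwg⟩ := wd_growth h
  obtain ⟨B, hB⟩ : ∃ B : ℝ, B = 16 * R₁ / c := ⟨_, rfl⟩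
  obtain ⟨J0, nC, hJ0⟩ := scale_a h B
  obtain ⟨Q, hQ⟩ : ∃ Q : ℕ, Q = 2 ^ (J0 + 1) := ⟨_, rfl⟩
  have hQ2 : 2 ≤ Q := by
    rw [hQ, pow_succ]
    have : 1 ≤ 2 ^ J0 := Nat.one_le_two_pow
    omega
  have hQr : (0 : ℝ) < Q := by exact_mod_cast (show 0 < Q by omega)
  obtain ⟨K', hK'⟩ : ∃ K' : ℝ, K' = (|K| + 2 * C) * (4 * Q) := ⟨_, rfl⟩
  obtain ⟨p, hp, nE, hS⟩ := hstrip K'
  obtain ⟨nF, hwd⟩ := (tendsto_atTop.1 (wd_tendsto h) 1).exists_forall_of_atTop
  have hsl0 := h.sl_pos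
  have hsl1 := h.sl_lt
  have hmin : 0 < min (sl μ s) (1 - sl μ s) := lt_min hsl0 (by linarith)
  obtain ⟨nI, hvA⟩ := eventually_atTop.1 (h.tv.eventually_le_const hmin)
  obtain ⟨nS, hnS⟩ := exists_nat_ge (16 / sl μ s)
  refine ⟨p / 2, by positivity, Q * (nC + nE + nF + nI + nW + nS + n₀ + 8), fun m hm N Y => ?_⟩
  obtain ⟨l, hl⟩ : ∃ l : ℕ, l = m / Q := ⟨_, rfl⟩
  have hlM : nC + nE + nF + nI + nW + nS + n₀ + 8 ≤ l := by
    rw [hl]
    exact (Nat.le_div_iff_mul_le (by omega)).2 (by rw [mul_comm]; exact hm)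
  have hlQ : Q * l ≤ m := by
    rw [hl]
    exact Nat.mul_div_le m Q
  have hlQ2 : m < Q * (l + 1) := by
    rw [hl]
    exact Nat.lt_mul_div_succ m (by omega)
  have hl2 : 2 * l ≤ m := (Nat.mul_le_mul_right l hQ2).trans hlQ
  obtain ⟨t, ht⟩ : ∃ t : ℕ, t = m - l := ⟨_, rfl⟩
  have hlt : l + t = m := by omega
  have hEm := EE_pos (μ := μ) (s := s) m
  have hEl := EE_pos (μ := μ) (s := s) l
  have s1 : B * EE μ s l ≤ EE μ s m := hJ0 l m (by omega) (by
    have : 2 ^ J0 * l ≤ Q * l := Nat.mul_le_mul_right l (by rw [hQ]; exact Nat.pow_le_pow_right (by norm_num) (by omega))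
    omega)
  have s2 : wd μ s l * EE μ s m ≤ 2 * EE μ s l * wd μ s m := hwg l m (by omega) (by omega)
  have s3 : EE μ s m ≤ 4 * Q * EE μ s l := by
    have h1 := scale_b h (show 1 ≤ l by omega) (show l ≤ m by omega)
    have h2 : (m : ℝ) ≤ 2 * Q * l := by
      have h3 : m ≤ 2 * Q * l := by
        have h4 : Q * (l + 1) ≤ 2 * Q * l := by
          have : Q * 1 ≤ Q * l := Nat.mul_le_mul_left Q (by omega)
          calc Q * (l + 1) = Q * l + Q * 1 := by ring
            _ ≤ Q * l + Q * l := by omega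
            _ = 2 * Q * l := by ring
        omega
      exact_mod_cast h3
    have hl0 : (0 : ℝ) < l := by exact_mod_cast (show 0 < l by omega)
    have h3 : (l : ℝ) * EE μ s m ≤ l * (4 * Q * EE μ s l) := by
      refine h1.trans ?_
      have h4 := mul_le_mul_of_nonneg_right h2 hEl.le
      calc 2 * ((m : ℝ) * EE μ s l) ≤ 2 * (2 * Q * l * EE μ s l) := by linarith
        _ = l * (4 * Q * EE μ s l) := by ring
    exact le_of_mul_le_mul_left h3 hl0
  have hwl : 0 < wd μ s l := lt_of_lt_of_le one_pos (hwd l (by omega))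
  have hwm : 0 < wd μ s m := lt_of_lt_of_le one_pos (hwd m (by omega))
  have s4 : R₁ * wd μ s l ≤ c * wd μ s m / 8 := by
    have h1 : wd μ s l * (B * EE μ s l) ≤ 2 * EE μ s l * wd μ s m := (mul_le_mul_of_nonneg_left s1 hwl.le).trans s2
    have h2 : (wd μ s l * B) * EE μ s l ≤ (2 * wd μ s m) * EE μ s l := by linarith
    have h3 := le_of_mul_le_mul_right h2 hEl
    rw [hB] at h3
    have h4 : R₁ * wd μ s l = wd μ s l * (16 * R₁ / c) * (c / 16) := by
      field_simp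
    rw [h4]
    have h5 := mul_le_mul_of_nonneg_right h3 (show (0 : ℝ) ≤ c / 16 by positivity)
    linarith
  have hR0 : 0 ≤ R₁ * wd μ s l := mul_nonneg (by linarith) hwl.le
  have hm00 : (0 : ℝ) ≤ m := Nat.cast_nonneg m
  have hwm1 : c * wd μ s m ≤ sl μ s * m := by
    have h3 := (hvA m (by omega)).trans (min_le_left _ _)
    have h4 : wd μ s m ≤ sl μ s * m := by
      unfold wd
      calc (m : ℝ) * vA 1 μ s m ≤ m * sl μ s := mul_le_mul_of_nonneg_left h3 hm00
        _ = sl μ s * m := mul_comm _ _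
    have h5 : c * wd μ s m ≤ 1 * wd μ s m := mul_le_mul_of_nonneg_right hc1 hwm.le
    linarith
  have hwm2 : c * wd μ s m ≤ (1 - sl μ s) * m := by
    have h3 := (hvA m (by omega)).trans (min_le_right _ _)
    have h4 : wd μ s m ≤ (1 - sl μ s) * m := by
      unfold wd
      calc (m : ℝ) * vA 1 μ s m ≤ m * (1 - sl μ s) := mul_le_mul_of_nonneg_left h3 hm00
        _ = (1 - sl μ s) * m := mul_comm _ _
    have h5 : c * wd μ s m ≤ 1 * wd μ s m := mul_le_mul_of_nonneg_right hc1 hwm.le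
    linarith
  have hmdr1 := md_le (μ := μ) (s := s) m
  have hmdr2 := lt_md (μ := μ) (s := s) m
  have hltr : (l : ℝ) + t = m := by exact_mod_cast hlt
  have hl2r : (2 : ℝ) * l ≤ m := by exact_mod_cast hl2
  have hm16 : 16 ≤ sl μ s * m := by
    have h1 : (nS : ℝ) ≤ m := by exact_mod_cast (show nS ≤ m by omega)
    have h2 := hnS.trans h1
    rw [div_le_iff₀ hsl0] at h2
    linarith
  have htl : sl μ s * m / 2 ≤ sl μ s * t := by
    have h1 : (m : ℝ) / 2 ≤ t := by linarith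
    have h2 := mul_le_mul_of_nonneg_left h1 hsl0.le
    linarith
  have htl2 : (1 - sl μ s) * m / 2 ≤ (1 - sl μ s) * t := by
    have h1 : (m : ℝ) / 2 ≤ t := by linarith
    have h2 := mul_le_mul_of_nonneg_left h1 (show 0 ≤ 1 - sl μ s by linarith)
    linarith
  have hslt : sl μ s * m = sl μ s * l + sl μ s * t := by rw [← hltr]; ring
  have hvt : c * wd μ s m / 2 ≤ c * vA 1 μ s m * t := by
    have hv := h.vA_nonneg m
    have h1 : (m : ℝ) / 2 ≤ t := by linarith
    have h2 := mul_le_mul_of_nonneg_left h1 (mul_nonneg hc0.le hv)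
    unfold wd
    calc c * (m * vA 1 μ s m) / 2 = c * vA 1 μ s m * (m / 2) := by ring
      _ ≤ c * vA 1 μ s m * t := h2
  have hend : ∀ y : ℤ, 0 ≤ y → y ≤ l → |(y : ℝ) - sl μ s * l| ≤ R₁ * wd μ s l →
      0 ≤ md μ s m - y ∧ md μ s m - y ≤ t ∧ ep μ s t (md μ s m - y) ≤ C * EE μ s m := by
    intro y hy0 hy1 hy
    rw [abs_le] at hy
    have k1 : 0 ≤ md μ s m - y := by
      have : (0 : ℝ) ≤ (md μ s m : ℝ) - y := by linarith
      exact_mod_cast this
    have k2 : md μ s m - y ≤ t := by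
      have : (md μ s m : ℝ) - y ≤ t := by linarith
      exact_mod_cast this
    refine ⟨k1, k2, h.inn m (by omega) t (md μ s m - y) (by omega) k1 k2 ?_⟩
    push_cast
    rw [abs_le]
    constructor <;> linarith
  -- the strip
  obtain ⟨S, hSd⟩ : ∃ S : Set Pt, S = St μ s (R₁ * wd μ s l) (0 : Pt) := ⟨_, rfl⟩
  obtain ⟨G, hG⟩ : ∃ G : Set Env, G = {η | K' * EE μ s l ≤ Real.log (cS μ s S η 0 l)} := ⟨_, rfl⟩
  have hcfS : ∀ η, cf μ s (R₁ * wd μ s l) η 0 l = cS μ s S η 0 l := fun η => by rw [hSd]; rfl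
  have hpG : p ≤ (law μ).real G := by
    have h1 := hS l (by omega) 0
    simp only [hcfS] at h1
    rw [hG]
    exact h1
  have mG : MeasurableSet G := by
    rw [hG]
    exact measurableSet_le measurable_const (Real.measurable_log.comp (measurable_cS S 0 l))
  obtain ⟨S', hS'⟩ : ∃ S' : Set Pt, S' = rows 0 l := ⟨_, rfl⟩
  have dcS : DependsOn (fun η : Env => cS μ s S η 0 l) S' := by
    intro η η' hh
    refine cS_dep S 0 l fun q hq => hh q ?_
    have h2 := hq.2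
    rw [hS']
    exact ⟨by simpa using h2.1, by simpa using h2.2⟩
  have dG : ∀ η η' : Env, (∀ q ∈ S', η q = η' q) → (η ∈ G ↔ η' ∈ G) := by
    intro η η' hh
    have h1 : cS μ s S η 0 l = cS μ s S η' 0 l := dcS hh
    rw [hG, Set.mem_ofPred_eq, Set.mem_ofPred_eq, h1]
  have hSS : S ⊆ St μ s (R₁ * wd μ s l) (0 : Pt) := by rw [hSd]
  have hCQ := CQ_markov (μ := μ) h.em hR0 hSS l t (md μ s m) (B := C * EE μ s m) (by positivity) hend (S := S') (by
    intro q hq
    rw [hS'] at hq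
    have := hq.2
    simpa using this) mG dG (u := 2 * C * EE μ s m) (by positivity)
  have hhalf : C * EE μ s m / (2 * C * EE μ s m) = 1 / 2 := by field_simp
  rw [hhalf] at hCQ
  obtain ⟨U, hU⟩ : ∃ U : Set Env, U = G ∩ {η | CQ μ s S η 0 l t (md μ s m) ≤ 2 * C * EE μ s m} := ⟨_, rfl⟩
  have mU : MeasurableSet U := by
    rw [hU]
    exact mG.inter (measurableSet_le (measurable_CQ S 0 l t (md μ s m)) measurable_const)
  have hUp : p / 2 ≤ (law μ).real U := by
    have h1 : G ⊆ U ∪ (G ∩ {η | 2 * C * EE μ s m < CQ μ s S η 0 l t (md μ s m)}) := by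
      intro η hη
      by_cases hq : CQ μ s S η 0 l t (md μ s m) ≤ 2 * C * EE μ s m
      · exact Or.inl (by rw [hU]; exact ⟨hη, hq⟩)
      · exact Or.inr ⟨hη, not_le.1 hq⟩
    have h2 := (measureReal_mono h1 (measure_ne_top (law μ) _)).trans (measureReal_union_le _ _)
    linarith
  -- the rest
  obtain ⟨a, ha⟩ : ∃ a : Pt, a = ((m : ℤ), md μ s m) := ⟨_, rfl⟩
  obtain ⟨E, hE⟩ : ∃ E : Set Env, E = {η | Y ≤ V μ s η a N} := ⟨_, rfl⟩
  have mE : MeasurableSet E := by rw [hE]; exact measurableSet_le measurable_const (measurable_V a N)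
  have hEp : (law μ).real E = (law μ).real {η | Y ≤ V μ s η 0 N} := by rw [hE]; exact V_ge_sh a N Y
  have dU : ∀ η η' : Env, (∀ q ∈ rows 0 m, η q = η' q) → (η ∈ U ↔ η' ∈ U) := by
    intro η η' hh
    have g1 : η ∈ G ↔ η' ∈ G := dG η η' fun q hq => by
      rw [hS'] at hq
      exact hh q ⟨hq.1, by have := hq.2; omega⟩
    have g2 : cS μ s S η 0 l = cS μ s S η' 0 l := dcS fun q hq => by
      rw [hS'] at hq
      exact hh q ⟨hq.1, by have := hq.2; omega⟩
    have g3 : ∀ y ∈ Finset.Icc (0 : ℤ) l, WR μ s S η 0 l y = WR μ s S η' 0 l y := fun y _ =>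
      WR_dep (μ := μ) (s := s) S 0 l y fun q hq => by
        have k1 := hq.1.1
        have k2 := hq.1.2.1
        exact hh q ⟨by simpa using k1, by
          have k3 : q.1 ≤ (l : ℤ) := by simpa using k2
          omega⟩
    have g4 : ∀ y : ℤ, X μ s η ((0 : Pt).1 + l, (0 : Pt).2 + y) t (md μ s m - y) =
        X μ s η' ((0 : Pt).1 + l, (0 : Pt).2 + y) t (md μ s m - y) := fun y =>
      X_dep (μ := μ) (s := s) _ t _ fun q hq => by
        have k1 := hq.1
        have k2 := hq.2.1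
        refine hh q ⟨?_, ?_⟩
        · have k3 : (0 : Pt).1 + (l : ℤ) < q.1 := k1
          have k4 : (0 : Pt).1 = 0 := rfl
          omega
        · have k3 : q.1 ≤ (0 : Pt).1 + (l : ℤ) + t := k2
          have k4 : (0 : Pt).1 = 0 := rfl
          omega
    have g5 : CQ μ s S η 0 l t (md μ s m) = CQ μ s S η' 0 l t (md μ s m) := by
      unfold CQ
      rw [g2]
      congr 1
      refine Finset.sum_congr rfl fun y hy => ?_
      rw [g3 y hy, g4 y]
    rw [hU, Set.mem_inter_iff, Set.mem_inter_iff, Set.mem_ofPred_eq, Set.mem_ofPred_eq, g5, g1]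
  have dE : ∀ η η' : Env, (∀ q ∈ {q : Pt | (m : ℤ) < q.1}, η q = η' q) → (η ∈ E ↔ η' ∈ E) := by
    intro η η' hh
    have g1 : V μ s η a N = V μ s η' a N := V_dep (μ := μ) (s := s) a N fun q hq => hh q (by
      have := hq.1
      rw [ha] at this
      exact this)
    rw [hE, Set.mem_ofPred_eq, Set.mem_ofPred_eq, g1]
  have hind := real_inter_indep (μ := μ) mU mE dU dE (by
    rw [Set.disjoint_left]
    intro q hq1 hq2
    have k1 := hq1.2
    have k2 : (m : ℤ) < q.1 := hq2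
    omega)
  have hincl : U ∩ E ⊆ {η | Y + K * EE μ s m ≤ V μ s η 0 (m + N)} := by
    rintro η ⟨q1, q2⟩
    rw [hU, hG] at q1
    obtain ⟨q3, q4⟩ := q1
    rw [Set.mem_ofPred_eq] at q3 q4
    rw [hE, Set.mem_ofPred_eq] at q2
    rw [Set.mem_ofPred_eq]
    have hcpos : 0 < cS μ s S η 0 l := by
      rw [← hcfS]
      exact cf_pos h (by
        have := hwd l (by omega)
        nlinarith) η 0 l
    have e0 : ((0 : Pt).1 + ((0 : ℕ) : ℤ), (0 : Pt).2 + 0) = (0 : Pt) := by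
      ext <;> simp
    have h1 := luck_det (μ := μ) (S := S) hR0 η 0 (t₁ := 0) (y₁ := 0) le_rfl (by simp) (by rw [e0]; exact hSS) l t N (md μ s m)
      (fun y hy0 hy1 hy => ⟨(hend y hy0 hy1 hy).1, (hend y hy0 hy1 hy).2.1⟩) (by rw [e0]; exact hcpos)
    rw [e0, X_zero] at h1
    have e1 : ((0 : Pt).1 + ((0 : ℕ) : ℤ) + (l : ℤ) + (t : ℤ), (0 : Pt).2 + 0 + md μ s m) = a := by
      rw [ha]
      ext
      · show (0 : ℤ) + ((0 : ℕ) : ℤ) + (l : ℤ) + (t : ℤ) = m
        push_cast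
        omega
      · show (0 : ℤ) + 0 + md μ s m = md μ s m
        ring
    rw [e1] at h1
    have e2 : 0 + (l + (t + N)) = m + N := by omega
    rw [e2] at h1
    have h2 : (|K| + 2 * C) * EE μ s m ≤ K' * EE μ s l := by
      rw [hK']
      have := mul_le_mul_of_nonneg_left s3 (show 0 ≤ |K| + 2 * C by positivity)
      linarith
    have h3 : K * EE μ s m ≤ |K| * EE μ s m := mul_le_mul_of_nonneg_right (le_abs_self K) hEm.le
    linarith
  have h1 := measureReal_mono hincl (measure_ne_top (law μ) _)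
  rw [hind, hEp] at h1
  have h2 := mul_le_mul_of_nonneg_right hUp (measureReal_nonneg (μ := law μ) (s := {η | Y ≤ V μ s η 0 N}))
  linarith

/-- `M` LUCKY BLOCKS in front. -/
theorem up_iter (h : In μ s c C n₀) (K : ℝ) : ∃ p : ℝ, 0 < p ∧ p ≤ 1 ∧ ∃ n₁ : ℕ, ∀ m : ℕ, n₁ ≤ m → ∀ (M N : ℕ) (Y : ℝ),
    p ^ M * (law μ).real {η | Y ≤ V μ s η 0 N} ≤ (law μ).real {η | Y + M * (K * EE μ s m) ≤ V μ s η 0 (M * m + N)} := by
  obtain ⟨p, hp, n₁, hb⟩ := up_block h K
  have hp1 : 0 < min p 1 := lt_min hp one_pos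
  refine ⟨min p 1, hp1, min_le_right _ _, n₁, fun m hm M N Y => ?_⟩
  induction M with
  | zero => simp
  | succ M ih =>
    have h1 := hb m hm (M * m + N) (Y + M * (K * EE μ s m))
    have e1 : m + (M * m + N) = (M + 1) * m + N := by ring
    have e2 : Y + M * (K * EE μ s m) + K * EE μ s m = Y + ((M + 1 : ℕ) : ℝ) * (K * EE μ s m) := by push_cast; ring
    rw [e1, e2] at h1
    refine le_trans ?_ h1
    have h2 : min p 1 ^ (M + 1) * (law μ).real {η | Y ≤ V μ s η 0 N} =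
        min p 1 * (min p 1 ^ M * (law μ).real {η | Y ≤ V μ s η 0 N}) := by ring
    rw [h2]
    exact mul_le_mul (min_le_left _ _) ih (mul_nonneg (pow_nonneg hp1.le _) measureReal_nonneg) hp.le

end

end Pool.Agent.W_7d29a1_HR
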