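import Pool.Agent.W_7d29a1_HR.Low2
import Pool.Agent.W_7d29a1_HR.TailU
import Pool.Agent.W_7d29a1_HR.Af
import Pool.Agent.W_7d29a1_HS.ExitS
import Pool.Agent.W_7d29a1_HX.X_Sub

/-!
MP_7d29a1_pr, TRACK H, part 4 (at the tilt `s`): BOTH TAILS of `log Z_n` from below: `P (V_n ≥ u EE n)` and `P (V_n ≤ - u EE n)` are
at least `exp (- A u ^ A)` (model: `W_7d29a1_NR.Tails`). (helper35)
-/

set_option autoImplicit false

namespace Pool.Agent.W_7d29a1_HR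

open MeasureTheory ProbabilityTheory Filter Topology
open Pool.Agent.W_7d29a1_F Pool.Agent.W_7d29a1_h4g Pool.Agent.W_7d29a1_H Pool.Agent.W_7d29a1_HS Pool.Agent.W_7d29a1_HL
open Pool.Agent.W_7d29a1_HX.X (sub_pow)

noncomputable section

/-- The number of blocks. -/
theorem choose_M {D θ₀ : ℝ} (hD : 0 < D) (h0 : 0 < θ₀) (K0 : ℕ) : ∃ D5 : ℝ, 0 < D5 ∧ ∃ n₁ : ℕ, ∀ n : ℕ, n₁ ≤ n →
    ∀ u : ℝ, 1 ≤ u → u ≤ (n : ℝ) ^ (θ₀ / 4) → ∃ M : ℕ, 2 ≤ M ∧ D * u ≤ (2 * (M : ℝ)) ^ θ₀ ∧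
      (M : ℝ) ≤ D5 * u ^ (1 / θ₀) ∧ K0 * M ^ 2 ≤ n := by
  obtain ⟨D5, hD5⟩ : ∃ D5 : ℝ, D5 = D ^ (1 / θ₀) + 3 := ⟨_, rfl⟩
  have hD5p : 0 < D5 := by
    rw [hD5]
    have := Real.rpow_nonneg hD.le (1 / θ₀)
    linarith
  obtain ⟨n₁, hn₁⟩ := exists_nat_ge ((K0 * D5 ^ 2) ^ 2 + 1)
  refine ⟨D5, hD5p, n₁, fun n hn u hs1 hs2 => ?_⟩
  have hs0 : 0 < u := by linarith
  have hnr : (n₁ : ℝ) ≤ n := by exact_mod_cast hn
  have hn0 : (0 : ℝ) < n := by
    have : 0 ≤ ((K0 : ℝ) * D5 ^ 2) ^ 2 := sq_nonneg _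
    linarith
  obtain ⟨x, hx⟩ : ∃ x : ℝ, x = (D * u) ^ (1 / θ₀) := ⟨_, rfl⟩
  have hx0 : 0 ≤ x := hx ▸ Real.rpow_nonneg (by positivity) _
  have h1 : x ≤ ⌈x⌉₊ := Nat.le_ceil x
  have h2 : (⌈x⌉₊ : ℝ) < x + 1 := Nat.ceil_lt_add_one hx0
  have hsp : 1 ≤ u ^ (1 / θ₀) := Real.one_le_rpow hs1 (by positivity)
  have hM : ((⌈x⌉₊ + 2 : ℕ) : ℝ) ≤ D5 * u ^ (1 / θ₀) := by
    push_cast
    rw [hD5, add_mul, ← Real.mul_rpow hD.le hs0.le, ← hx]
    linarith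
  refine ⟨⌈x⌉₊ + 2, by omega, ?_, hM, ?_⟩
  · have h3 : x ≤ 2 * ((⌈x⌉₊ + 2 : ℕ) : ℝ) := by
      push_cast
      linarith
    have h4 := Real.rpow_le_rpow hx0 h3 h0.le
    rw [hx, ← Real.rpow_mul (by positivity), one_div_mul_cancel h0.ne', Real.rpow_one] at h4
    rw [hx]
    exact h4
  · have h3 : ((⌈x⌉₊ + 2 : ℕ) : ℝ) ^ 2 ≤ D5 ^ 2 * (n : ℝ) ^ (1 / 2 : ℝ) := by
      have h4 : u ^ (1 / θ₀) ≤ (n : ℝ) ^ (1 / 4 : ℝ) := by
        have h5 := Real.rpow_le_rpow hs0.le hs2 (show 0 ≤ 1 / θ₀ by positivity)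
        rw [← Real.rpow_mul hn0.le] at h5
        have h6 : θ₀ / 4 * (1 / θ₀) = 1 / 4 := by field_simp
        rwa [h6] at h5
      have h5 : ((⌈x⌉₊ + 2 : ℕ) : ℝ) ≤ D5 * (n : ℝ) ^ (1 / 4 : ℝ) := hM.trans (mul_le_mul_of_nonneg_left h4 hD5p.le)
      have h6 := pow_le_pow_left₀ (Nat.cast_nonneg _) h5 2
      refine h6.trans (le_of_eq ?_)
      rw [mul_pow, ← Real.rpow_natCast ((n : ℝ) ^ (1 / 4 : ℝ)) 2, ← Real.rpow_mul hn0.le]
      norm_num
    have h4 : (K0 : ℝ) * ((⌈x⌉₊ + 2 : ℕ) : ℝ) ^ 2 ≤ n := by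
      have h5 := mul_le_mul_of_nonneg_left h3 (Nat.cast_nonneg (α := ℝ) K0)
      refine h5.trans ?_
      have h6 : (K0 : ℝ) * D5 ^ 2 ≤ (n : ℝ) ^ (1 / 2 : ℝ) := by
        have h7 : ((K0 : ℝ) * D5 ^ 2) ^ 2 ≤ n := by linarith
        have h8 := Real.rpow_le_rpow (sq_nonneg _) h7 (show (0 : ℝ) ≤ 1 / 2 by norm_num)
        rwa [← Real.rpow_natCast, ← Real.rpow_mul (by positivity), show ((2 : ℕ) : ℝ) * (1 / 2) = 1 by norm_num,
          Real.rpow_one] at h8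
      have h7 : (n : ℝ) ^ (1 / 2 : ℝ) * (n : ℝ) ^ (1 / 2 : ℝ) = n := by
        rw [← Real.rpow_add hn0]
        norm_num
      calc (K0 : ℝ) * (D5 ^ 2 * (n : ℝ) ^ (1 / 2 : ℝ)) = K0 * D5 ^ 2 * (n : ℝ) ^ (1 / 2 : ℝ) := by ring
        _ ≤ (n : ℝ) ^ (1 / 2 : ℝ) * (n : ℝ) ^ (1 / 2 : ℝ) := mul_le_mul_of_nonneg_right h6 (Real.rpow_nonneg hn0.le _)
        _ = n := h7
    exact_mod_cast h4

/-- The probability `p ^ k / 2` as an exponential. -/
theorem pow_exp {p : ℝ} (hp : 0 < p) {a D : ℝ} (ha : 0 ≤ a) (hD : 0 ≤ D) : ∃ A : ℝ, 0 < A ∧ ∀ (u : ℝ) (k : ℕ), 1 ≤ u →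
    (k : ℝ) ≤ D * u ^ a → Real.exp (-(A * u ^ A)) ≤ p ^ k * (1 / 2) := by
  obtain ⟨A, hA⟩ : ∃ A : ℝ, A = |Real.log p| * D + 1 + a := ⟨_, rfl⟩
  have hlp := abs_nonneg (Real.log p)
  have hA1 : |Real.log p| * D + 1 ≤ A := by rw [hA]; linarith
  have hAa : a ≤ A := by rw [hA]; have := mul_nonneg hlp hD; linarith
  have hA0 : 0 < A := by have := mul_nonneg hlp hD; linarith
  refine ⟨A, hA0, fun u k hs hk => ?_⟩
  have hs0 : 0 < u := by linarith
  have h1 : (1 : ℝ) ≤ u ^ A := Real.one_le_rpow hs hA0.le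
  have h2 : u ^ a ≤ u ^ A := Real.rpow_le_rpow_of_exponent_le hs hAa
  have h3 : p ^ k * (1 / 2) = Real.exp (k * Real.log p - Real.log 2) := by
    rw [Real.exp_sub, Real.exp_log (by norm_num), ← Real.log_pow, Real.exp_log (pow_pos hp k)]
    ring
  rw [h3, Real.exp_le_exp]
  have h4 := Real.log_two_lt_d9
  have h5 : -(|Real.log p| * (D * u ^ A)) ≤ k * Real.log p := by
    have h6 : (k : ℝ) * |Real.log p| ≤ D * u ^ A * |Real.log p| :=
      mul_le_mul_of_nonneg_right (hk.trans (mul_le_mul_of_nonneg_left h2 hD)) hlp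
    have h7 : -((k : ℝ) * |Real.log p|) ≤ k * Real.log p := by
      have h8 := mul_le_mul_of_nonneg_left (neg_abs_le (Real.log p)) (Nat.cast_nonneg (α := ℝ) k)
      linarith
    linarith
  have h6 : (|Real.log p| * D + 1) * u ^ A ≤ A * u ^ A := mul_le_mul_of_nonneg_right hA1 (by linarith)
  nlinarith

variable {μ : Measure ℝ} [IsProbabilityMeasure μ] {s c C : ℝ} {n₀ : ℕ}

omit [IsProbabilityMeasure μ] in
private theorem mkv35 [IsProbabilityMeasure μ] {f : Env → ℝ} (hf : Integrable f (law μ)) (h0 : ∀ η, 0 ≤ f η) {B u : ℝ}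
    (hB : ∫ η, f η ∂(law μ) ≤ B) (hu : 0 < u) : (law μ).real {η | u < f η} ≤ B / u := by
  have h1 := mul_meas_ge_le_integral_of_nonneg (μ := law μ) (f := f) (ae_of_all _ h0) hf u
  have h2 : u * (law μ).real {η | u ≤ f η} ≤ B := by
    refine le_trans ?_ hB
    simpa [Measure.real] using h1
  have h3 : (law μ).real {η | u < f η} ≤ (law μ).real {η | u ≤ f η} :=
    measureReal_mono (fun η hη => by
      rw [Set.mem_ofPred_eq] at hη ⊢
      exact hη.le) (measure_ne_top _ _)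
  rw [le_div_iff₀ hu]
  have h4 := mul_le_mul_of_nonneg_left h3 hu.le
  linarith

/-- The unit at the scale of the blocks. -/
theorem block_unit {B θ₀ : ℝ} (hB : 1 ≤ B) (h1 : θ₀ < 1) {n₂ : ℕ}
    (hsub : ∀ m n : ℕ, n₂ ≤ m → m ≤ n → EE μ s n ≤ B * ((n : ℝ) / m) ^ (1 - θ₀) * EE μ s m) {m n M : ℕ} (hm : n₂ ≤ m)
    (hm1 : 1 ≤ m) (hmn : m ≤ n) (hM : 1 ≤ M) (hn : n ≤ 2 * M * m) {K u : ℝ} (hs : B * u ≤ K * (2 * (M : ℝ)) ^ θ₀)
    (hs0 : 0 ≤ u) : u * EE μ s n ≤ K * (2 * M) * EE μ s m := by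
  have hm0 : (0 : ℝ) < m := by exact_mod_cast hm1
  have hM0 : (0 : ℝ) < 2 * M := by
    have : (0 : ℝ) < M := by exact_mod_cast hM
    linarith
  have hEm := EE_pos (μ := μ) (s := s) m
  have h2 : (n : ℝ) / m ≤ 2 * M := by
    rw [div_le_iff₀ hm0]
    exact_mod_cast hn
  have h3 : ((n : ℝ) / m) ^ (1 - θ₀) ≤ (2 * (M : ℝ)) ^ (1 - θ₀) :=
    Real.rpow_le_rpow (by positivity) h2 (by linarith)
  have h4 := hsub m n hm hmn
  have h5 : EE μ s n ≤ B * (2 * (M : ℝ)) ^ (1 - θ₀) * EE μ s m :=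
    h4.trans (mul_le_mul_of_nonneg_right (mul_le_mul_of_nonneg_left h3 (by linarith)) hEm.le)
  have h6 : (2 * (M : ℝ)) ^ θ₀ * (2 * (M : ℝ)) ^ (1 - θ₀) = 2 * M := by
    rw [← Real.rpow_add hM0]
    norm_num
  have h7 : 0 ≤ (2 * (M : ℝ)) ^ (1 - θ₀) := Real.rpow_nonneg hM0.le _
  calc u * EE μ s n ≤ u * (B * (2 * (M : ℝ)) ^ (1 - θ₀) * EE μ s m) := mul_le_mul_of_nonneg_left h5 hs0
    _ = B * u * ((2 * (M : ℝ)) ^ (1 - θ₀) * EE μ s m) := by ring
    _ ≤ K * (2 * (M : ℝ)) ^ θ₀ * ((2 * (M : ℝ)) ^ (1 - θ₀) * EE μ s m) :=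
        mul_le_mul_of_nonneg_right hs (mul_nonneg h7 hEm.le)
    _ = K * ((2 * (M : ℝ)) ^ θ₀ * (2 * (M : ℝ)) ^ (1 - θ₀)) * EE μ s m := by ring
    _ = K * (2 * M) * EE μ s m := by rw [h6]

/-- **THE UPPER TAIL FROM BELOW.** -/
theorem up_tail (h : In μ s c C n₀) : ∃ A θ : ℝ, 0 < A ∧ 0 < θ ∧ ∃ n₁ : ℕ, ∀ n : ℕ, n₁ ≤ n → ∀ u : ℝ, 1 ≤ u →
    u ≤ (n : ℝ) ^ θ → Real.exp (-(A * u ^ A)) ≤ (law μ).real {η | u * EE μ s n ≤ V μ s η 0 n} := by
  obtain ⟨p, hp, -, n1, hup⟩ := up_iter h 4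
  obtain ⟨B, θ₀, hB, hθ₀, hθ₁, n2, hsub⟩ := sub_pow h
  have hB0 : 0 < B := by linarith
  obtain ⟨D5, hD5, n3, hM⟩ := choose_M hB0 hθ₀ (n1 + n2 + 2)
  obtain ⟨A, hA, hexp⟩ := pow_exp hp (a := 1 / θ₀) (D := D5) (by positivity) hD5.le
  refine ⟨A, θ₀ / 4, hA, by positivity, n3, fun n hn u hs1 hs2 => ?_⟩
  obtain ⟨M, hM2, hMs, hMD, hMn⟩ := hM n hn u hs1 hs2
  obtain ⟨m, hm⟩ : ∃ m : ℕ, m = n / M := ⟨_, rfl⟩
  obtain ⟨r, hr⟩ : ∃ r : ℕ, r = n % M := ⟨_, rfl⟩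
  have hmM : (n1 + n2 + 2) * M ≤ m := by
    rw [hm]
    refine (Nat.le_div_iff_mul_le (by omega)).2 ?_
    calc (n1 + n2 + 2) * M * M = (n1 + n2 + 2) * M ^ 2 := by ring
      _ ≤ n := hMn
  have hmn1 : n1 + n2 + 2 ≤ m := by
    have : (n1 + n2 + 2) * 1 ≤ (n1 + n2 + 2) * M := Nat.mul_le_mul_left _ (by omega)
    omega
  have hMm : M ≤ m := by
    have : 1 * M ≤ (n1 + n2 + 2) * M := Nat.mul_le_mul_right _ (by omega)
    omega
  have hnn : M * m + r = n := by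
    rw [hm, hr]
    exact Nat.div_add_mod n M
  have hrM : r < M := by
    rw [hr]
    exact Nat.mod_lt _ (by omega)
  have hrm : r ≤ m := by omega
  have hn2 : n ≤ 2 * M * m := by
    have : M * 1 ≤ M * m := Nat.mul_le_mul_left M (by omega)
    calc n = M * m + r := hnn.symm
      _ ≤ M * m + M * m := by omega
      _ = 2 * M * m := by ring
  have hmn : m ≤ n := by
    have : 1 * m ≤ M * m := Nat.mul_le_mul_right m (by omega)
    omega
  have hEm := EE_pos (μ := μ) (s := s) m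
  have key := hup m (by omega) M r (-(2 * EE μ s m))
  -- the rest
  have h1 : 1 / 2 ≤ (law μ).real {η | -(2 * EE μ s m) ≤ V μ s η 0 r} := by
    have hsubV : Sub fun η : Env => max (-V μ s η 0 r) 0 := (Sub_V (μ := μ) (s := s) 0 r).neg.max (Sub.const 0)
    have h2 := mkv35 (μ := μ) (hsubV.integrable h.em) (fun η => le_max_right _ _) (mean_neg_V (μ := μ) (s := s) h.em hrm)
      (show 0 < 2 * EE μ s m by positivity)
    have h3 : EE μ s m / (2 * EE μ s m) = 1 / 2 := by field_simp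
    rw [h3] at h2
    have h4 : (Set.univ : Set Env) ⊆ {η | -(2 * EE μ s m) ≤ V μ s η 0 r} ∪ {η | 2 * EE μ s m < max (-V μ s η 0 r) 0} := by
      intro η _
      by_cases h5 : -(2 * EE μ s m) ≤ V μ s η 0 r
      · exact Or.inl h5
      · right
        rw [Set.mem_ofPred_eq]
        exact lt_max_of_lt_left (by linarith)
    have h5 := (measureReal_mono h4 (measure_ne_top (law μ) _)).trans (measureReal_union_le _ _)
    rw [probReal_univ] at h5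
    linarith
  have h2 := mul_le_mul_of_nonneg_left h1 (pow_nonneg hp.le M)
  refine (hexp u M hs1 hMD).trans (h2.trans (key.trans ?_))
  rw [hnn]
  refine measureReal_mono (fun η hη => ?_) (measure_ne_top _ _)
  rw [Set.mem_ofPred_eq] at hη ⊢
  refine le_trans ?_ hη
  have h3 := block_unit (μ := μ) hB hθ₁ hsub (m := m) (n := n) (M := M) (by omega) (by omega) hmn (by omega) hn2 (K := 1)
    (u := u) (by rw [one_mul]; exact hMs) (by linarith)
  have h4 : (2 : ℝ) ≤ M := by exact_mod_cast hM2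
  nlinarith

/-- The exit from a wide strip is unlikely and its weight small. -/
theorem exit_ev (h : In μ s c C n₀) : ∃ D : ℝ, 1 ≤ D ∧ ∃ n₁ : ℕ, ∀ n : ℕ, n₁ ≤ n → ∀ u : ℝ, 1 ≤ u →
    1 / 2 ≤ (law μ).real {η | Real.exp (V μ s η 0 n) - cS μ s (Sp μ s (D * u * wd μ s n)) η 0 n ≤
      Real.exp (-((u + 1) * EE μ s n))} := by
  have hc0 := h.c0
  have hC1 := h.C1
  have hC0 : 0 < C := lt_of_lt_of_le one_pos hC1
  obtain ⟨R0, hR01, hRu, n3, hn3, hex⟩ := exit_main h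
  have ht1 : Tendsto (fun R : ℝ => 4 * (C * Real.exp (-(c * R / (16 * C))))) atTop (𝓝 0) := by
    have e1 : Tendsto (fun R : ℝ => c * R / (16 * C)) atTop atTop := by
      have : (fun R : ℝ => c * R / (16 * C)) = fun R => (c / (16 * C)) * R := by
        funext R
        ring
      rw [this]
      exact tendsto_id.const_mul_atTop (by positivity)
    have e3 : Tendsto (fun R : ℝ => Real.exp (-(c * R / (16 * C)))) atTop (𝓝 0) :=
      Real.tendsto_exp_neg_atTop_nhds_zero.comp e1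
    have e5 := (e3.const_mul C).const_mul 4
    simpa using e5
  obtain ⟨R1, hR1⟩ := eventually_atTop.1 (ht1.eventually_lt_const (show (0 : ℝ) < 1 / 8 by norm_num))
  obtain ⟨D, hD⟩ : ∃ D : ℝ, D = 384 / c + R0 + |R1| := ⟨_, rfl⟩
  have h384 : 0 < 384 / c := by positivity
  have habs := abs_nonneg R1
  have hD1 : 1 ≤ D := by rw [hD]; linarith
  refine ⟨D, hD1, n3, fun n hn u hs => ?_⟩
  obtain ⟨R, hR⟩ : ∃ R : ℝ, R = D * u := ⟨_, rfl⟩
  have hDR : D ≤ R := by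
    rw [hR]
    nlinarith
  have hRR0 : R0 ≤ R := by rw [hD] at hDR; linarith
  have hRR1 : R1 ≤ R := by rw [hD] at hDR; have := le_abs_self R1; linarith
  have hR384 : 384 / c * u ≤ R := by
    rw [hR, hD]
    refine mul_le_mul_of_nonneg_right ?_ (by linarith)
    linarith
  have hcR : 384 * u ≤ c * R := by
    have h1 := mul_le_mul_of_nonneg_left hR384 hc0.le
    have h2 : c * (384 / c * u) = 384 * u := by field_simp
    linarith
  have hE := EE_pos (μ := μ) (s := s) n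
  have h1 := hex n hn R hRR0
  have h2 := hR1 R hRR1
  -- the lower tail
  have h3 : (law μ).real {η | V μ s η 0 n ≤ -(c * R / 16 * EE μ s n)} ≤ 1 / 8 := by
    have hsubV : Sub fun η : Env => max (-V μ s η 0 n) 0 := (Sub_V (μ := μ) (s := s) 0 n).neg.max (Sub.const 0)
    have h4 := mkv35 (μ := μ) (hsubV.integrable h.em) (fun η => le_max_right _ _) (mean_neg_V (μ := μ) (s := s) h.em (le_refl n))
      (show 0 < 8 * EE μ s n by positivity)
    have h5 : EE μ s n / (8 * EE μ s n) = 1 / 8 := by field_simp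
    rw [h5] at h4
    refine le_trans (measureReal_mono (fun η hη => ?_) (measure_ne_top _ _)) h4
    rw [Set.mem_ofPred_eq] at hη ⊢
    refine lt_max_of_lt_left ?_
    have h6 : 8 * EE μ s n < c * R / 16 * EE μ s n := mul_lt_mul_of_pos_right (by linarith) hE
    linarith
  -- the upper tail
  have h4 : (law μ).real {η | 4 * EE μ s n < V μ s η 0 n} ≤ 1 / 4 := by
    have hsubV : Sub fun η : Env => max (V μ s η 0 n) 0 := (Sub_V (μ := μ) (s := s) 0 n).max (Sub.const 0)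
    have h5 := mkv35 (μ := μ) (hsubV.integrable h.em) (fun η => le_max_right _ _) (pos_V (μ := μ) (s := s) h.em 0 n)
      (show 0 < 4 * EE μ s n by positivity)
    have h6 : EE μ s n / (4 * EE μ s n) = 1 / 4 := by field_simp
    rw [h6] at h5
    refine le_trans (measureReal_mono (fun η hη => ?_) (measure_ne_top _ _)) h5
    rw [Set.mem_ofPred_eq] at hη ⊢
    exact lt_max_of_lt_left hη
  obtain ⟨X, hX⟩ : ∃ X : Set Env, X = {η | Real.exp (-(c / 64 * R * EE μ s n)) * Real.exp (V μ s η 0 n) ≤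
        Real.exp (V μ s η 0 n) - cf μ s (R * wd μ s n) η 0 n} := ⟨_, rfl⟩
  rw [← hX] at h1
  have hsub : (Set.univ : Set Env) ⊆ {η | Real.exp (V μ s η 0 n) - cS μ s (Sp μ s (D * u * wd μ s n)) η 0 n ≤
      Real.exp (-((u + 1) * EE μ s n))} ∪ (X ∪ {η | 4 * EE μ s n < V μ s η 0 n}) := by
    intro η _
    by_cases q1 : η ∈ X
    · exact Or.inr (Or.inl q1)
    · by_cases q2 : 4 * EE μ s n < V μ s η 0 n
      · exact Or.inr (Or.inr q2)
      · left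
        rw [hX, Set.mem_ofPred_eq, not_le] at q1
        rw [Set.mem_ofPred_eq, ← hR]
        have e1 : cS μ s (Sp μ s (R * wd μ s n)) η 0 n = cf μ s (R * wd μ s n) η 0 n := rfl
        rw [e1]
        refine q1.le.trans ?_
        rw [← Real.exp_add]
        refine Real.exp_le_exp.2 ?_
        have h5 : c / 64 * R * EE μ s n ≥ 6 * u * EE μ s n := by
          have : 6 * u ≤ c / 64 * R := by linarith
          exact mul_le_mul_of_nonneg_right this hE.le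
        nlinarith
  have h5 := (measureReal_mono hsub (measure_ne_top (law μ) _)).trans (measureReal_union_le _ _)
  have h6 := measureReal_union_le (μ := law μ) X {η | 4 * EE μ s n < V μ s η 0 n}
  rw [probReal_univ] at h5
  linarith

end

end Pool.Agent.W_7d29a1_HR
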